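import Mathlib

/-!
Preorders between two given preorders `P ≤ Q` on a set `X`: for a suitable point `p`, at most half of
them have no new elements below `p`. The proof is an explicit injection.
-/

set_option autoImplicit false

namespace Pool.Agent.H61UC

variable {X : Type*}

/-- `R` is reflexive and transitive. -/
structure Pre (R : X → X → Prop) : Prop where
  refl : ∀ x, R x x
  trans : ∀ x y z, R x y → R y z → R x z

/-- The preorders between `P` and `Q`. -/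
def Iv (P Q : X → X → Prop) : Set (X → X → Prop) :=
  {R | Pre R ∧ (∀ x y, P x y → R x y) ∧ ∀ x y, R x y → Q x y}

/-- Replace the elements below and above `p` by `D` and `A`. -/
def ext (p : X) (R : X → X → Prop) (D A : X → Prop) : X → X → Prop := fun x y =>
  (x = p ∧ y = p) ∨ (x ≠ p ∧ y = p ∧ D x) ∨ (x = p ∧ y ≠ p ∧ A y) ∨ (x ≠ p ∧ y ≠ p ∧ R x y)

section ext
variable {p : X} {R : X → X → Prop} {D A : X → Prop}

theorem ext_pp : ext p R D A p p := Or.inl ⟨rfl, rfl⟩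

theorem ext_d {x : X} (hx : x ≠ p) : ext p R D A x p ↔ D x := by
  simp [ext, hx]

theorem ext_a {y : X} (hy : y ≠ p) : ext p R D A p y ↔ A y := by
  simp [ext, hy]

theorem ext_r {x y : X} (hx : x ≠ p) (hy : y ≠ p) : ext p R D A x y ↔ R x y := by
  simp [ext, hx, hy]

end ext

/-- The hypotheses on `p`. -/
structure Ctx (P Q : X → X → Prop) (p : X) : Prop where
  hP : Pre P
  hQ : Pre Q
  hPQ : ∀ x y, P x y → Q x y
  anti : ∀ x, P x p → P p x → x = p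
  h1 : ∀ a, Q p a → ¬ Q a p → ∀ x, Q x p → P x a
  h2 : ∀ a, P p a → a ≠ p → ∀ x, Q x p → P x a

theorem ext_mem {P Q : X → X → Prop} {p : X} (h : Ctx P Q p) {R : X → X → Prop} {D A : X → Prop}
    (hr : ∀ x, x ≠ p → R x x)
    (ht : ∀ x y z, x ≠ p → y ≠ p → z ≠ p → R x y → R y z → R x z)
    (hPR : ∀ x y, x ≠ p → y ≠ p → P x y → R x y)
    (hRQ : ∀ x y, x ≠ p → y ≠ p → R x y → Q x y)
    (d1 : ∀ x y, x ≠ p → y ≠ p → R x y → D y → D x)
    (a1 : ∀ x y, x ≠ p → y ≠ p → R x y → A x → A y)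
    (da : ∀ x y, x ≠ p → y ≠ p → D x → A y → R x y)
    (dP : ∀ x, x ≠ p → P x p → D x) (dQ : ∀ x, x ≠ p → D x → Q x p)
    (aP : ∀ y, y ≠ p → P p y → A y) (aQ : ∀ y, y ≠ p → A y → Q p y) :
    ext p R D A ∈ Iv P Q := by
  refine ⟨⟨?_, ?_⟩, ?_, ?_⟩
  · intro x
    by_cases hx : x = p
    · subst hx; exact ext_pp
    · exact (ext_r hx hx).2 (hr x hx)
  · intro x y z hxy hyz
    by_cases hx : x = p <;> by_cases hy : y = p <;> by_cases hz : z = p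
    · subst hx; subst hz; exact ext_pp
    · subst hx; subst hy; exact hyz
    · subst hx; subst hz; exact ext_pp
    · subst hx
      exact (ext_a hz).2 (a1 y z hy hz ((ext_r hy hz).1 hyz) ((ext_a hy).1 hxy))
    · subst hy; subst hz; exact hxy
    · subst hy
      exact (ext_r hx hz).2 (da x z hx hz ((ext_d hx).1 hxy) ((ext_a hz).1 hyz))
    · subst hz
      exact (ext_d hx).2 (d1 x y hx hy ((ext_r hx hy).1 hxy) ((ext_d hy).1 hyz))
    · exact (ext_r hx hz).2 (ht x y z hx hy hz ((ext_r hx hy).1 hxy) ((ext_r hy hz).1 hyz))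
  · intro x y hxy
    by_cases hx : x = p <;> by_cases hy : y = p
    · subst hx; subst hy; exact ext_pp
    · subst hx; exact (ext_a hy).2 (aP y hy hxy)
    · subst hy; exact (ext_d hx).2 (dP x hx hxy)
    · exact (ext_r hx hy).2 (hPR x y hx hy hxy)
  · intro x y hxy
    by_cases hx : x = p <;> by_cases hy : y = p
    · subst hx; subst hy; exact h.hQ.refl _
    · subst hx; exact aQ y hy ((ext_a hy).1 hxy)
    · subst hy; exact dQ x hx ((ext_d hx).1 hxy)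
    · exact hRQ x y hx hy ((ext_r hx hy).1 hxy)

section defs
variable (P Q : X → X → Prop) (p : X)

/-- The elements which may be new below `p`. -/
def V1 (y : X) : Prop := Q y p ∧ ¬ P y p

/-- `w` may be identified with `p`. -/
def W (R : X → X → Prop) (w : X) : Prop := V1 P Q p w ∧ Q p w ∧ ∀ d, d ≠ p → P d p → R d w

/-- The smallest possible set above `p`. -/
def Am (R : X → X → Prop) (y : X) : Prop := ∃ b, b ≠ p ∧ P p b ∧ R b y

/-- The new elements are put below the largest elements under `p`. -/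
def Rt (R : X → X → Prop) (x y : X) : Prop :=
  R x y ∨ (V1 P Q p x ∧ y ≠ p ∧ P y p ∧ ∀ d, d ≠ p → P d p → R d y)

def TypeA (R : X → X → Prop) : Prop := ∀ y, y ≠ p → R p y → ¬ P y p

/-- The preorders with no new element below `p`. -/
def Cs : Set (X → X → Prop) := {R | R ∈ Iv P Q ∧ ∀ x, R x p → P x p}

/-- The preorders with a new element below `p`. -/
def Ns : Set (X → X → Prop) := {R | R ∈ Iv P Q ∧ ∃ x, R x p ∧ ¬ P x p}

/-- `S` is the image of `R`. -/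
def Img (w0 : X) (R S : X → X → Prop) : Prop :=
  (TypeA P p R ∧ S = ext p R (fun x => Q x p ∧ ¬ R p x) (Am P p R)) ∨
  (TypeA P p R ∧ (∀ y, V1 P Q p y → R p y) ∧ S = ext p R (fun x => R x w0) (fun y => R w0 y)) ∨
  (¬ TypeA P p R ∧ (∃ w, W P Q p R w ∧ ((∀ y, V1 P Q p y → W P Q p R y) → ¬ (R w w0 ∧ R w0 w)) ∧
    S = ext p R (fun x => R x w) (fun y => R w y))) ∨
  (¬ TypeA P p R ∧ (∀ w, ¬ W P Q p R w) ∧ (∃ s s', V1 P Q p s ∧ V1 P Q p s' ∧ ¬ R s' s ∧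
    S = ext p R (fun x => P x p ∨ R x s) (Am P p R))) ∨
  (¬ TypeA P p R ∧ (∀ s s', V1 P Q p s → V1 P Q p s' → R s' s) ∧
    S = ext p (Rt P Q p R) (fun x => Q x p) (Am P p (Rt P Q p R)))

end defs

variable {P Q : X → X → Prop} {p : X}

theorem V1.ne (h : Ctx P Q p) {v : X} (hv : V1 P Q p v) : v ≠ p := by
  rintro rfl
  exact hv.2 (h.hP.refl _)

theorem Am.mono {R : X → X → Prop} {x y : X}
    (ht : ∀ x y z, x ≠ p → y ≠ p → z ≠ p → R x y → R y z → R x z)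
    (hx : x ≠ p) (hy : y ≠ p) (hxy : R x y) (hA : Am P p R x) : Am P p R y := by
  obtain ⟨b, hb, hpb, hbx⟩ := hA
  exact ⟨b, hb, hpb, ht b x y hb hx hy hbx hxy⟩

/-- Every preorder with no new element below `p` has an image. -/
theorem exists_img (h : Ctx P Q p) {w0 : X} (hw0 : V1 P Q p w0) {R : X → X → Prop}
    (hR : R ∈ Cs P Q p) : ∃ S ∈ Ns P Q p, Img P Q p w0 R S := by
  obtain ⟨⟨hpre, hPR, hRQ⟩, hcl⟩ := hR
  have ht : ∀ x y z, x ≠ p → y ≠ p → z ≠ p → R x y → R y z → R x z :=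
    fun x y z _ _ _ => hpre.trans x y z
  have hAmQ : ∀ y, y ≠ p → Am P p R y → Q p y := by
    rintro y - ⟨b, -, hpb, hby⟩
    exact h.hQ.trans _ _ _ (h.hPQ _ _ hpb) (hRQ _ _ hby)
  have hAmP : ∀ y, y ≠ p → P p y → Am P p R y := fun y hy hpy => ⟨y, hy, hpy, hpre.refl y⟩
  have hdaAm : ∀ x y, x ≠ p → y ≠ p → Q x p → Am P p R y → R x y := by
    rintro x y hx hy hxp ⟨b, hb, hpb, hby⟩
    exact hpre.trans _ _ _ (hPR _ _ (h.h2 b hpb hb x hxp)) hby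
  by_cases hA : TypeA P p R
  · by_cases hall : ∀ y, V1 P Q p y → R p y
    · -- identify `p` with `w0`
      refine ⟨ext p R (fun x => R x w0) (fun y => R w0 y), ⟨?_, w0, ?_, hw0.2⟩,
        Or.inr (Or.inl ⟨hA, hall, rfl⟩)⟩
      · have hpw := hall w0 hw0
        refine ext_mem h (fun x _ => hpre.refl x) ht (fun x y _ _ => hPR x y)
          (fun x y _ _ => hRQ x y) (fun x y _ _ hxy hy => hpre.trans _ _ _ hxy hy)
          (fun x y _ _ hxy hx => hpre.trans _ _ _ hx hxy)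
          (fun x y _ _ hx hy => hpre.trans _ _ _ hx hy) ?_ ?_ ?_ ?_
        · intro x _ hxp
          exact hpre.trans _ _ _ (hPR _ _ hxp) hpw
        · intro x _ hx
          exact h.hQ.trans _ _ _ (hRQ _ _ hx) hw0.1
        · intro y hy hpy
          exact hPR _ _ (h.h2 y hpy hy w0 hw0.1)
        · intro y _ hy
          exact h.hQ.trans _ _ _ (hRQ _ _ hpw) (hRQ _ _ hy)
      · exact (ext_d (hw0.ne h)).2 (hpre.refl w0)
    · push Not at hall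
      obtain ⟨y0, hy0, hpy0⟩ := hall
      refine ⟨ext p R (fun x => Q x p ∧ ¬ R p x) (Am P p R), ⟨?_, y0, ?_, hy0.2⟩,
        Or.inl ⟨hA, rfl⟩⟩
      · refine ext_mem h (fun x _ => hpre.refl x) ht (fun x y _ _ => hPR x y)
          (fun x y _ _ => hRQ x y) ?_ (fun x y hx hy hxy hAx => Am.mono ht hx hy hxy hAx) ?_ ?_
          (fun x _ hx => hx.1) hAmP hAmQ
        · rintro x y _ _ hxy ⟨hyp, hpy⟩
          exact ⟨h.hQ.trans _ _ _ (hRQ _ _ hxy) hyp, fun hpx => hpy (hpre.trans _ _ _ hpx hxy)⟩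
        · intro x y hx hy hD hAy
          exact hdaAm x y hx hy hD.1 hAy
        · intro x hx hxp
          exact ⟨h.hPQ _ _ hxp, fun hpx => hA x hx hpx hxp⟩
      · exact (ext_d (hy0.ne h)).2 ⟨hy0.1, hpy0⟩
  · by_cases h12 : ∃ w, W P Q p R w ∧ ((∀ y, V1 P Q p y → W P Q p R y) → ¬ (R w w0 ∧ R w0 w))
    · obtain ⟨w, hw, hw'⟩ := h12
      refine ⟨ext p R (fun x => R x w) (fun y => R w y), ⟨?_, w, ?_, hw.1.2⟩,
        Or.inr (Or.inr (Or.inl ⟨hA, w, hw, hw', rfl⟩))⟩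
      · refine ext_mem h (fun x _ => hpre.refl x) ht (fun x y _ _ => hPR x y)
          (fun x y _ _ => hRQ x y) (fun x y _ _ hxy hy => hpre.trans _ _ _ hxy hy)
          (fun x y _ _ hxy hx => hpre.trans _ _ _ hx hxy)
          (fun x y _ _ hx hy => hpre.trans _ _ _ hx hy) ?_ ?_ ?_ ?_
        · intro x hx hxp
          exact hw.2.2 x hx hxp
        · intro x _ hx
          exact h.hQ.trans _ _ _ (hRQ _ _ hx) hw.1.1
        · intro y hy hpy
          exact hPR _ _ (h.h2 y hpy hy w hw.1.1)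
        · intro y _ hy
          exact h.hQ.trans _ _ _ hw.2.1 (hRQ _ _ hy)
      · exact (ext_d (hw.1.ne h)).2 (hpre.refl w)
    · by_cases h1b : (∀ w, ¬ W P Q p R w) ∧ ∃ s s', V1 P Q p s ∧ V1 P Q p s' ∧ ¬ R s' s
      · obtain ⟨hW, s, s', hs, hs', hss⟩ := h1b
        refine ⟨ext p R (fun x => P x p ∨ R x s) (Am P p R), ⟨?_, s, ?_, hs.2⟩,
          Or.inr (Or.inr (Or.inr (Or.inl ⟨hA, hW, s, s', hs, hs', hss, rfl⟩)))⟩
        · have hDQ : ∀ x, x ≠ p → (P x p ∨ R x s) → Q x p := by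
            rintro x - (hx | hx)
            · exact h.hPQ _ _ hx
            · exact h.hQ.trans _ _ _ (hRQ _ _ hx) hs.1
          refine ext_mem h (fun x _ => hpre.refl x) ht (fun x y _ _ => hPR x y)
            (fun x y _ _ => hRQ x y) ?_ (fun x y hx hy hxy hAx => Am.mono ht hx hy hxy hAx) ?_
            (fun x _ hx => Or.inl hx) hDQ hAmP hAmQ
          · rintro x y _ _ hxy (hy | hy)
            · exact Or.inl (hcl x (hpre.trans _ _ _ hxy (hPR _ _ hy)))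
            · exact Or.inr (hpre.trans _ _ _ hxy hy)
          · intro x y hx hy hD hAy
            exact hdaAm x y hx hy (hDQ x hx hD) hAy
        · exact (ext_d (hs.ne h)).2 (Or.inr (hpre.refl s))
      · -- all new elements are equivalent
        have hsing : ∀ s s', V1 P Q p s → V1 P Q p s' → R s' s := by
          intro s s' hs hs'
          by_contra hss
          have hex : ∃ w, W P Q p R w := by
            by_contra hno
            push Not at hno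
            exact h1b ⟨hno, s, s', hs, hs', hss⟩
          obtain ⟨w, hw⟩ := hex
          have key : ∀ w, W P Q p R w → (∀ y, V1 P Q p y → W P Q p R y) ∧ (R w w0 ∧ R w0 w) := by
            intro w hw
            by_contra hno
            exact h12 ⟨w, hw, fun h3 h4 => hno ⟨h3, h4⟩⟩
          have hVW := (key w hw).1
          have k1 := (key s (hVW s hs)).2
          have k2 := (key s' (hVW s' hs')).2
          exact hss (hpre.trans _ _ _ k2.1 k1.2)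
        have hA' : ∃ t, t ≠ p ∧ R p t ∧ P t p := by
          unfold TypeA at hA
          push Not at hA
          exact hA
        obtain ⟨t, htp, hpt, hPt⟩ := hA'
        have htop : ∀ d, P d p → R d t := fun d hd => hpre.trans _ _ _ (hPR _ _ hd) hpt
        -- the elements of the top class below `p` are above `p`
        have hT : ∀ y, (∀ d, d ≠ p → P d p → R d y) → R p y := fun y hy =>
          hpre.trans _ _ _ hpt (hy t htp hPt)
        have hRtQ : ∀ x y, Rt P Q p R x y → Q x y := by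
          rintro x y (hxy | ⟨hx, _, _, hy⟩)
          · exact hRQ _ _ hxy
          · exact h.hQ.trans _ _ _ hx.1 (hRQ _ _ (hT y hy))
        have hRtt : ∀ x y z, x ≠ p → y ≠ p → z ≠ p → Rt P Q p R x y → Rt P Q p R y z →
            Rt P Q p R x z := by
          rintro x y z hx hy hz (hxy | ⟨hxV, _, hyP, hyT⟩) (hyz | ⟨hyV, _, hzP, hzT⟩)
          · exact Or.inl (hpre.trans _ _ _ hxy hyz)
          · by_cases hxP : P x p
            · exact Or.inl (hzT x hx hxP)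
            · exact Or.inr ⟨⟨h.hQ.trans _ _ _ (hRQ _ _ hxy) hyV.1, hxP⟩, hz, hzP, hzT⟩
          · by_cases hzP : P z p
            · exact Or.inr ⟨hxV, hz, hzP, fun d hd hdP => hpre.trans _ _ _ (hyT d hd hdP) hyz⟩
            · have hpz : R p z := hpre.trans _ _ _ (hT y hyT) hyz
              by_cases hzQ : Q z p
              · exact Or.inl (hsing z x ⟨hzQ, hzP⟩ hxV)
              · exact Or.inl (hPR _ _ (h.h1 z (hRQ _ _ hpz) hzQ x hxV.1))
          · exact absurd hyP hyV.2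
        refine ⟨ext p (Rt P Q p R) (fun x => Q x p) (Am P p (Rt P Q p R)), ⟨?_, w0, ?_, hw0.2⟩,
          Or.inr (Or.inr (Or.inr (Or.inr ⟨hA, hsing, rfl⟩)))⟩
        · refine ext_mem h (fun x _ => Or.inl (hpre.refl x)) hRtt
            (fun x y _ _ hxy => Or.inl (hPR x y hxy)) (fun x y _ _ => hRtQ x y)
            (fun x y _ _ hxy hy => h.hQ.trans _ _ _ (hRtQ _ _ hxy) hy)
            (fun x y hx hy hxy hAx => Am.mono hRtt hx hy hxy hAx) ?_
            (fun x _ hx => h.hPQ _ _ hx) (fun x _ hx => hx)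
            (fun y hy hpy => ⟨y, hy, hpy, Or.inl (hpre.refl y)⟩) ?_
          · rintro x y hx hy hxp ⟨b, hb, hpb, hby⟩
            exact hRtt x b y hx hb hy (Or.inl (hPR _ _ (h.h2 b hpb hb x hxp))) hby
          · rintro y - ⟨b, -, hpb, hby⟩
            exact h.hQ.trans _ _ _ (h.hPQ _ _ hpb) (hRtQ _ _ hby)
        · exact (ext_d (hw0.ne h)).2 hw0.1

/-- two preorders with no new element below `p` agree if they agree off `p` and above `p` -/
theorem eq_of_off {R₁ R₂ : X → X → Prop} (h₁ : R₁ ∈ Cs P Q p) (h₂ : R₂ ∈ Cs P Q p)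
    (hoff : ∀ x y, x ≠ p → y ≠ p → (R₁ x y ↔ R₂ x y)) (ha : ∀ y, y ≠ p → (R₁ p y ↔ R₂ p y)) :
    R₁ = R₂ := by
  funext x y
  apply propext
  by_cases hx : x = p <;> by_cases hy : y = p
  · subst hx; subst hy; exact ⟨fun _ => h₂.1.1.refl _, fun _ => h₁.1.1.refl _⟩
  · subst hx; exact ha y hy
  · subst hy
    exact ⟨fun hxy => h₂.1.2.1 _ _ (h₁.2 x hxy), fun hxy => h₁.1.2.1 _ _ (h₂.2 x hxy)⟩
  · exact hoff x y hx hy

/-- type B: what is above `p` is determined off `p` -/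
theorem typeB_above {R : X → X → Prop} (hR : R ∈ Cs P Q p) (hB : ¬ TypeA P p R) {y : X} :
    R p y ↔ ∃ t, t ≠ p ∧ P t p ∧ (∀ d, d ≠ p → P d p → R d t) ∧ R t y := by
  unfold TypeA at hB
  push Not at hB
  obtain ⟨t, htp, hpt, hPt⟩ := hB
  obtain ⟨⟨hpre, hPR, hRQ⟩, hcl⟩ := hR
  constructor
  · intro hpy
    exact ⟨t, htp, hPt, fun d _ hd => hpre.trans _ _ _ (hPR _ _ hd) hpt,
      hpre.trans _ _ _ (hPR _ _ hPt) hpy⟩
  · rintro ⟨t', _, _, h3, h4⟩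
    exact hpre.trans _ _ _ hpt (hpre.trans _ _ _ (h3 t htp hPt) h4)

theorem eq_of_typeB {R₁ R₂ : X → X → Prop} (h₁ : R₁ ∈ Cs P Q p) (h₂ : R₂ ∈ Cs P Q p)
    (hB₁ : ¬ TypeA P p R₁) (hB₂ : ¬ TypeA P p R₂)
    (hoff : ∀ x y, x ≠ p → y ≠ p → (R₁ x y ↔ R₂ x y)) : R₁ = R₂ := by
  refine eq_of_off h₁ h₂ hoff fun y hy => ?_
  rw [typeB_above h₁ hB₁, typeB_above h₂ hB₂]
  constructor
  · rintro ⟨t, ht, hPt, h3, h4⟩
    exact ⟨t, ht, hPt, fun d hd hdP => (hoff d t hd ht).1 (h3 d hd hdP), (hoff t y ht hy).1 h4⟩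
  · rintro ⟨t, ht, hPt, h3, h4⟩
    exact ⟨t, ht, hPt, fun d hd hdP => (hoff d t hd ht).2 (h3 d hd hdP), (hoff t y ht hy).2 h4⟩

/-- The set below `p` stays closed off `p`. -/
def K3 (P : X → X → Prop) (p : X) (S : X → X → Prop) : Prop :=
  ∃ x y, x ≠ p ∧ y ≠ p ∧ S x y ∧ P y p ∧ ¬ P x p

theorem not_K3 {R : X → X → Prop} (hR : R ∈ Cs P Q p) {D A : X → Prop} :
    ¬ K3 P p (ext p R D A) := by
  rintro ⟨x, y, hx, hy, hxy, hyP, hxP⟩
  rw [ext_r hx hy] at hxy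
  exact hxP (hR.2 x (hR.1.1.trans _ _ _ hxy (hR.1.2.1 _ _ hyP)))

theorem K3_exc (h : Ctx P Q p) {w0 : X} (hw0 : V1 P Q p w0) {R : X → X → Prop}
    (hR : R ∈ Cs P Q p) (hB : ¬ TypeA P p R) {D A : X → Prop} :
    K3 P p (ext p (Rt P Q p R) D A) := by
  unfold TypeA at hB
  push Not at hB
  obtain ⟨t, htp, hpt, hPt⟩ := hB
  refine ⟨w0, t, hw0.ne h, htp, (ext_r (hw0.ne h) htp).2 (Or.inr ⟨hw0, htp, hPt, ?_⟩), hPt, hw0.2⟩
  intro d _ hd
  exact hR.1.1.trans _ _ _ (hR.1.2.1 _ _ hd) hpt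

section inj
variable {R₁ R₂ R₁' R₂' : X → X → Prop} {D₁ D₂ A₁ A₂ : X → Prop}

theorem ext_inj (he : ext p R₁' D₁ A₁ = ext p R₂' D₂ A₂) :
    (∀ x y, x ≠ p → y ≠ p → (R₁' x y ↔ R₂' x y)) ∧ (∀ x, x ≠ p → (D₁ x ↔ D₂ x)) ∧
      ∀ y, y ≠ p → (A₁ y ↔ A₂ y) := by
  refine ⟨fun x y hx hy => ?_, fun x hx => ?_, fun y hy => ?_⟩
  · rw [← ext_r (p := p) (R := R₁') (D := D₁) (A := A₁) hx hy, he, ext_r hx hy]
  · rw [← ext_d (p := p) (R := R₁') (D := D₁) (A := A₁) hx, he, ext_d hx]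
  · rw [← ext_a (p := p) (R := R₁') (D := D₁) (A := A₁) hy, he, ext_a hy]

end inj

/-- not above `p` unless in the class of `p`: determined by `P` -/
theorem above_out (h : Ctx P Q p) {R : X → X → Prop} (hR : R ∈ Cs P Q p) {y : X} (hy : ¬ Q y p) :
    R p y ↔ P p y :=
  ⟨fun hpy => h.h1 y (hR.1.2.2 _ _ hpy) hy p (h.hQ.refl p), fun hpy => hR.1.2.1 _ _ hpy⟩

/-- an image of the first kind has no element equivalent to `p` -/
theorem no_equiv {R : X → X → Prop} (hR : R ∈ Cs P Q p) {w : X}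
    (h1 : Q w p ∧ ¬ R p w) (h2 : Am P p R w) : False := by
  obtain ⟨b, _, hpb, hbw⟩ := h2
  exact h1.2 (hR.1.1.trans _ _ _ (hR.1.2.1 _ _ hpb) hbw)

theorem W_of_above {R₁ R₂ : X → X → Prop} (h₁ : R₁ ∈ Cs P Q p)
    (hoff : ∀ x y, x ≠ p → y ≠ p → (R₁ x y ↔ R₂ x y)) {w : X} (hw : V1 P Q p w) (hwp : w ≠ p)
    (hpw : R₁ p w) : W P Q p R₂ w :=
  ⟨hw, h₁.1.2.2 _ _ hpw, fun d hd hdP =>
    (hoff d w hd hwp).1 (h₁.1.1.trans _ _ _ (h₁.1.2.1 _ _ hdP) hpw)⟩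

theorem inj_12 {R₁ R₂ : X → X → Prop}
    (h₁ : R₁ ∈ Cs P Q p) {w : X} (hw : w ≠ p) {S : X → X → Prop}
    (hS₁ : S = ext p R₁ (fun x => Q x p ∧ ¬ R₁ p x) (Am P p R₁))
    (h₂ : R₂ ∈ Cs P Q p) (hS₂ : S = ext p R₂ (fun x => R₂ x w) (fun y => R₂ w y)) : False := by
  obtain ⟨_, hd, ha⟩ := ext_inj (hS₁.symm.trans hS₂)
  exact no_equiv h₁ ((hd w hw).2 (h₂.1.1.refl w)) ((ha w hw).2 (h₂.1.1.refl w))

theorem inj_14 (h : Ctx P Q p) {R₁ R₂ : X → X → Prop} (h₁ : R₁ ∈ Cs P Q p) {S : X → X → Prop}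
    (hS₁ : S = ext p R₁ (fun x => Q x p ∧ ¬ R₁ p x) (Am P p R₁))
    (hW : ∀ w, ¬ W P Q p R₂ w) {s s' : X} (hs' : V1 P Q p s') (hss : ¬ R₂ s' s)
    (hS₂ : S = ext p R₂ (fun x => P x p ∨ R₂ x s) (Am P p R₂)) : False := by
  obtain ⟨hoff, hd, ha⟩ := ext_inj (hS₁.symm.trans hS₂)
  have hs'p := hs'.ne h
  have h3 : ¬ (Q s' p ∧ ¬ R₁ p s') := by
    rw [hd s' hs'p]
    rintro (h4 | h4)
    · exact hs'.2 h4
    · exact hss h4
  have h4 : R₁ p s' := by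
    by_contra h5
    exact h3 ⟨hs'.1, h5⟩
  exact hW s' (W_of_above h₁ hoff hs' hs'p h4)

theorem inj_23 (h : Ctx P Q p) {w0 : X} (hw0 : V1 P Q p w0) {R₁ R₂ : X → X → Prop}
    (h₁ : R₁ ∈ Cs P Q p) (h₂ : R₂ ∈ Cs P Q p) {S : X → X → Prop}
    (hall : ∀ y, V1 P Q p y → R₁ p y)
    (hS₁ : S = ext p R₁ (fun x => R₁ x w0) (fun y => R₁ w0 y)) {w : X} (hw : W P Q p R₂ w)
    (hw' : (∀ y, V1 P Q p y → W P Q p R₂ y) → ¬ (R₂ w w0 ∧ R₂ w0 w))
    (hS₂ : S = ext p R₂ (fun x => R₂ x w) (fun y => R₂ w y)) : False := by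
  obtain ⟨hoff, hd, ha⟩ := ext_inj (hS₁.symm.trans hS₂)
  have hwp := hw.1.ne h
  have hw0p := hw0.ne h
  refine hw' (fun y hy => W_of_above h₁ hoff hy (hy.ne h) (hall y hy)) ⟨?_, ?_⟩
  · exact (hoff w w0 hwp hw0p).1 ((hd w hwp).2 (h₂.1.1.refl w))
  · exact (hoff w0 w hw0p hwp).1 ((ha w hwp).2 (h₂.1.1.refl w))

theorem inj_24 (h : Ctx P Q p) {w0 : X} (hw0 : V1 P Q p w0) {R₁ R₂ : X → X → Prop}
    (h₁ : R₁ ∈ Cs P Q p) {S : X → X → Prop} (hall : ∀ y, V1 P Q p y → R₁ p y)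
    (hS₁ : S = ext p R₁ (fun x => R₁ x w0) (fun y => R₁ w0 y))
    (hW : ∀ w, ¬ W P Q p R₂ w) {s : X}
    (hS₂ : S = ext p R₂ (fun x => P x p ∨ R₂ x s) (Am P p R₂)) : False := by
  obtain ⟨hoff, hd, ha⟩ := ext_inj (hS₁.symm.trans hS₂)
  exact hW w0 (W_of_above h₁ hoff hw0 (hw0.ne h) (hall w0 hw0))

/-- The image relation is injective. -/
theorem img_inj (h : Ctx P Q p) {w0 : X} (hw0 : V1 P Q p w0) {R₁ R₂ S : X → X → Prop}
    (h₁ : R₁ ∈ Cs P Q p) (h₂ : R₂ ∈ Cs P Q p) (i₁ : Img P Q p w0 R₁ S) (i₂ : Img P Q p w0 R₂ S) :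
    R₁ = R₂ := by
  have hw0p := hw0.ne h
  rcases i₁ with ⟨hA₁, e₁⟩ | ⟨hA₁, hall₁, e₁⟩ | ⟨hB₁, w₁, hw₁, hw₁', e₁⟩ |
      ⟨hB₁, hW₁, s₁, s₁', hs₁, hs₁', hss₁, e₁⟩ | ⟨hB₁, hsg₁, e₁⟩ <;>
    rcases i₂ with ⟨hA₂, e₂⟩ | ⟨hA₂, hall₂, e₂⟩ | ⟨hB₂, w₂, hw₂, hw₂', e₂⟩ |
      ⟨hB₂, hW₂, s₂, s₂', hs₂, hs₂', hss₂, e₂⟩ | ⟨hB₂, hsg₂, e₂⟩
  · -- 1 1
    obtain ⟨hoff, hd, ha⟩ := ext_inj (e₁.symm.trans e₂)
    refine eq_of_off h₁ h₂ hoff fun y hy => ?_
    by_cases hyQ : Q y p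
    · have := hd y hy
      constructor
      · intro h3
        by_contra h4
        exact (this.2 ⟨hyQ, h4⟩).2 h3
      · intro h3
        by_contra h4
        exact (this.1 ⟨hyQ, h4⟩).2 h3
    · rw [above_out h h₁ hyQ, above_out h h₂ hyQ]
  · exact (inj_12 h₁ hw0p e₁ h₂ e₂).elim
  · exact (inj_12 h₁ (hw₂.1.ne h) e₁ h₂ e₂).elim
  · exact (inj_14 h h₁ e₁ hW₂ hs₂' hss₂ e₂).elim
  · exact (not_K3 h₁ (e₁ ▸ e₂ ▸ K3_exc h hw0 h₂ hB₂)).elim
  · exact (inj_12 h₂ hw0p e₂ h₁ e₁).elim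
  · -- 2 2
    obtain ⟨hoff, hd, ha⟩ := ext_inj (e₁.symm.trans e₂)
    refine eq_of_off h₁ h₂ hoff fun y hy => ?_
    by_cases hyQ : Q y p
    · constructor
      · intro h3
        exact hall₂ y ⟨hyQ, hA₁ y hy h3⟩
      · intro h3
        exact hall₁ y ⟨hyQ, hA₂ y hy h3⟩
    · rw [above_out h h₁ hyQ, above_out h h₂ hyQ]
  · exact (inj_23 h hw0 h₁ h₂ hall₁ e₁ hw₂ hw₂' e₂).elim
  · exact (inj_24 h hw0 h₁ hall₁ e₁ hW₂ e₂).elim
  · exact (not_K3 h₁ (e₁ ▸ e₂ ▸ K3_exc h hw0 h₂ hB₂)).elim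
  · exact (inj_12 h₂ (hw₁.1.ne h) e₂ h₁ e₁).elim
  · exact (inj_23 h hw0 h₂ h₁ hall₂ e₂ hw₁ hw₁' e₁).elim
  · exact eq_of_typeB h₁ h₂ hB₁ hB₂ (ext_inj (e₁.symm.trans e₂)).1
  · exact eq_of_typeB h₁ h₂ hB₁ hB₂ (ext_inj (e₁.symm.trans e₂)).1
  · exact (not_K3 h₁ (e₁ ▸ e₂ ▸ K3_exc h hw0 h₂ hB₂)).elim
  · exact (inj_14 h h₂ e₂ hW₁ hs₁' hss₁ e₁).elim
  · exact (inj_24 h hw0 h₂ hall₂ e₂ hW₁ e₁).elim
  · exact eq_of_typeB h₁ h₂ hB₁ hB₂ (ext_inj (e₁.symm.trans e₂)).1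
  · exact eq_of_typeB h₁ h₂ hB₁ hB₂ (ext_inj (e₁.symm.trans e₂)).1
  · exact (not_K3 h₁ (e₁ ▸ e₂ ▸ K3_exc h hw0 h₂ hB₂)).elim
  · exact (not_K3 h₂ (e₂ ▸ e₁ ▸ K3_exc h hw0 h₁ hB₁)).elim
  · exact (not_K3 h₂ (e₂ ▸ e₁ ▸ K3_exc h hw0 h₁ hB₁)).elim
  · exact (not_K3 h₂ (e₂ ▸ e₁ ▸ K3_exc h hw0 h₁ hB₁)).elim
  · exact (not_K3 h₂ (e₂ ▸ e₁ ▸ K3_exc h hw0 h₁ hB₁)).elim
  · -- 5 5
    have hoff' := (ext_inj (e₁.symm.trans e₂)).1
    refine eq_of_typeB h₁ h₂ hB₁ hB₂ fun x y hx hy => ?_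
    constructor
    · intro h3
      rcases (hoff' x y hx hy).1 (Or.inl h3) with h4 | ⟨h4, _, h5, _⟩
      · exact h4
      · exact (h4.2 (h₁.2 x (h₁.1.1.trans _ _ _ h3 (h₁.1.2.1 _ _ h5)))).elim
    · intro h3
      rcases (hoff' x y hx hy).2 (Or.inl h3) with h4 | ⟨h4, _, h5, _⟩
      · exact h4
      · exact (h4.2 (h₂.2 x (h₂.1.1.trans _ _ _ h3 (h₂.1.2.1 _ _ h5)))).elim

/-- **Core lemma.** At most half of the preorders between `P` and `Q` have no new element below `p`. -/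
theorem core [Finite X] (h : Ctx P Q p) (h3 : ∃ v, V1 P Q p v) :
    2 * (Cs P Q p).ncard ≤ (Iv P Q).ncard := by
  obtain ⟨w0, hw0⟩ := h3
  classical
  have hfin : ∀ s : Set (X → X → Prop), s.Finite := fun s => Set.toFinite s
  choose! f hf using fun R (hR : R ∈ Cs P Q p) => exists_img h hw0 hR
  have hle : (Cs P Q p).ncard ≤ (Ns P Q p).ncard := by
    refine Set.ncard_le_ncard_of_injOn f (fun R hR => (hf R hR).1) ?_ (hfin _)
    intro R₁ h₁ R₂ h₂ he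
    exact img_inj h hw0 h₁ h₂ (hf R₁ h₁).2 (he ▸ (hf R₂ h₂).2)
  have hunion : Cs P Q p ∪ Ns P Q p = Iv P Q := by
    ext R
    constructor
    · rintro (hR | hR)
      · exact hR.1
      · exact hR.1
    · intro hR
      by_cases hc : ∀ x, R x p → P x p
      · exact Or.inl ⟨hR, hc⟩
      · push Not at hc
        exact Or.inr ⟨hR, hc⟩
  have hdisj : Disjoint (Cs P Q p) (Ns P Q p) := by
    rw [Set.disjoint_left]
    rintro R h₁ ⟨_, x, hx, hx'⟩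
    exact hx' (h₁.2 x hx)
  have := Set.ncard_union_eq hdisj (hfin _) (hfin _)
  rw [hunion] at this
  omega

/-- **Core lemma, strict form.** -/
theorem core_strict [Finite X] (h : Ctx P Q p) {k b d : X} (hk : V1 P Q p k) (hb : V1 P Q p b)
    (hbk : ¬ P b k) (hd : d ≠ p) (hdp : P d p) (hkd : Q k d) :
    2 * (Cs P Q p).ncard < (Iv P Q).ncard := by
  classical
  have hfin : ∀ s : Set (X → X → Prop), s.Finite := fun s => Set.toFinite s
  choose! f hf using fun R (hR : R ∈ Cs P Q p) => exists_img h hk hR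
  let S0 : X → X → Prop := fun x y => P x y ∨ (P x k ∧ P d y)
  have hS0 : S0 ∈ Ns P Q p := by
    refine ⟨⟨⟨fun x => Or.inl (h.hP.refl x), ?_⟩, fun x y hxy => Or.inl hxy, ?_⟩, k,
      Or.inr ⟨h.hP.refl k, hdp⟩, hk.2⟩
    · rintro x y z (h1 | ⟨h1, h2⟩) (h3 | ⟨h3, h4⟩)
      · exact Or.inl (h.hP.trans _ _ _ h1 h3)
      · exact Or.inr ⟨h.hP.trans _ _ _ h1 h3, h4⟩
      · exact Or.inr ⟨h1, h.hP.trans _ _ _ h2 h3⟩
      · exact Or.inr ⟨h1, h4⟩
    · rintro x y (h1 | ⟨h1, h2⟩)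
      · exact h.hPQ _ _ h1
      · exact h.hQ.trans _ _ _ (h.hPQ _ _ h1) (h.hQ.trans _ _ _ hkd (h.hPQ _ _ h2))
  have hK3 : K3 P p S0 := ⟨k, d, hk.ne h, hd, Or.inr ⟨h.hP.refl k, h.hP.refl d⟩, hdp, hk.2⟩
  have hnot : ∀ R ∈ Cs P Q p, f R ≠ S0 := by
    intro R hR he
    rcases (hf R hR).2 with ⟨_, e⟩ | ⟨_, _, e⟩ | ⟨_, w, _, _, e⟩ | ⟨_, _, s, s', _, _, _, e⟩ |
      ⟨hB, hsg, e⟩
    · exact not_K3 hR (e ▸ he ▸ hK3)
    · exact not_K3 hR (e ▸ he ▸ hK3)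
    · exact not_K3 hR (e ▸ he ▸ hK3)
    · exact not_K3 hR (e ▸ he ▸ hK3)
    · have h5 : Rt P Q p R b k := Or.inl (hsg k b hk hb)
      have h6 : S0 b k := by
        rw [← he, e, ext_r (hb.ne h) (hk.ne h)]
        exact h5
      rcases h6 with h7 | h7
      · exact hbk h7
      · exact hbk h7.1
  have hle : (Cs P Q p).ncard ≤ (Ns P Q p \ {S0}).ncard := by
    refine Set.ncard_le_ncard_of_injOn f (fun R hR => ⟨(hf R hR).1, hnot R hR⟩) ?_ (hfin _)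
    intro R₁ h₁ R₂ h₂ he
    exact img_inj h hk h₁ h₂ (hf R₁ h₁).2 (he ▸ (hf R₂ h₂).2)
  have hlt : (Ns P Q p \ {S0}).ncard < (Ns P Q p).ncard :=
    Set.ncard_sdiff_singleton_lt_of_mem hS0 (hfin _)
  have hunion : Cs P Q p ∪ Ns P Q p = Iv P Q := by
    ext R
    constructor
    · rintro (hR | hR)
      · exact hR.1
      · exact hR.1
    · intro hR
      by_cases hc : ∀ x, R x p → P x p
      · exact Or.inl ⟨hR, hc⟩
      · push Not at hc
        exact Or.inr ⟨hR, hc⟩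
  have hdisj : Disjoint (Cs P Q p) (Ns P Q p) := by
    rw [Set.disjoint_left]
    rintro R h₁ ⟨_, x, hx, hx'⟩
    exact hx' (h₁.2 x hx)
  have := Set.ncard_union_eq hdisj (hfin _) (hfin _)
  rw [hunion] at this
  omega

end Pool.Agent.H61UC
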