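import Pool.Agent.H61UC.Poonen

/-!
Union-closed families from the sublattices between two sublattices of a finite distributive lattice.
-/

set_option autoImplicit false

namespace Pool.Agent.H61UC

section family
variable {L : Type*} [DistribLattice L] [Fintype L] [DecidableEq L]

open Classical in
/-- the complement of a sublattice -/
noncomputable def compl (S : Sublattice L) : Finset L := Finset.univ.filter fun x => x ∉ S

theorem mem_compl {S : Sublattice L} {x : L} : x ∈ compl S ↔ x ∉ S := by
  classical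
  simp [compl]

theorem compl_inj : Function.Injective (compl : Sublattice L → Finset L) := by
  intro S T h
  refine SetLike.ext fun x => ?_
  have h1 : x ∈ compl S ↔ x ∈ compl T := by rw [h]
  rw [mem_compl, mem_compl] at h1
  exact not_iff_not.1 h1

/-- `A` is the family of the complements of the sublattices above `M`. -/
def IsFamily (M : Sublattice L) (A : Finset (Finset L)) : Prop :=
  ∀ X : Finset L, X ∈ A ↔ ∃ S : Sublattice L, M ≤ S ∧ ∀ x, x ∈ X ↔ x ∉ S

theorem IsFamily.mem_iff {M : Sublattice L} {A : Finset (Finset L)} (hA : IsFamily M A)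
    {X : Finset L} : X ∈ A ↔ ∃ S : Sublattice L, M ≤ S ∧ compl S = X := by
  rw [hA X]
  constructor
  · rintro ⟨S, hS, h⟩
    exact ⟨S, hS, Finset.ext fun x => by rw [mem_compl, h x]⟩
  · rintro ⟨S, hS, rfl⟩
    exact ⟨S, hS, fun x => mem_compl⟩

theorem IsFamily.card {M : Sublattice L} {A : Finset (Finset L)} (hA : IsFamily M A) :
    A.card = {S : Sublattice L | M ≤ S}.ncard := by
  rw [← Set.ncard_coe_finset A]
  have : (A : Set (Finset L)) = compl '' {S : Sublattice L | M ≤ S} := by
    ext X
    rw [Finset.mem_coe, hA.mem_iff]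
    rfl
  rw [this, Set.ncard_image_of_injective _ compl_inj]

theorem IsFamily.card_filter {M : Sublattice L} {A : Finset (Finset L)} (hA : IsFamily M A)
    (x : L) : (A.filter fun X => x ∈ X).card + {S : Sublattice L | M ≤ S ∧ x ∈ S}.ncard =
      A.card := by
  rw [← Finset.card_filter_add_card_filter_not (s := A) (fun X => x ∈ X)]
  congr 1
  rw [← Set.ncard_coe_finset]
  have : ((A.filter fun X => ¬ x ∈ X : Finset (Finset L)) : Set (Finset L)) =
      compl '' {S : Sublattice L | M ≤ S ∧ x ∈ S} := by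
    ext X
    rw [Finset.mem_coe, Finset.mem_filter, hA.mem_iff]
    constructor
    · rintro ⟨⟨S, hS, rfl⟩, hx⟩
      rw [mem_compl, not_not] at hx
      exact ⟨S, ⟨hS, hx⟩, rfl⟩
    · rintro ⟨S, ⟨hS, hx⟩, rfl⟩
      exact ⟨⟨S, hS, rfl⟩, by rw [mem_compl, not_not]; exact hx⟩
  rw [this, Set.ncard_image_of_injective _ compl_inj]

theorem IsFamily.union {M : Sublattice L} {A : Finset (Finset L)} (hA : IsFamily M A) :
    ∀ X ∈ A, ∀ Y ∈ A, X ∪ Y ∈ A := by
  intro X hX Y hY
  rw [hA.mem_iff] at hX hY ⊢
  obtain ⟨S, hS, rfl⟩ := hX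
  obtain ⟨T, hT, rfl⟩ := hY
  refine ⟨S ⊓ T, le_inf hS hT, Finset.ext fun x => ?_⟩
  rw [Finset.mem_union, mem_compl, mem_compl, mem_compl, Sublattice.mem_inf]
  tauto

theorem IsFamily.mem_sup {M : Sublattice L} {A : Finset (Finset L)} (hA : IsFamily M A) {x : L} :
    x ∈ A.sup id ↔ x ∉ M := by
  rw [Finset.mem_sup]
  constructor
  · rintro ⟨X, hX, hx⟩
    rw [hA.mem_iff] at hX
    obtain ⟨S, hS, rfl⟩ := hX
    exact fun h => mem_compl.1 hx (hS h)
  · intro hx
    exact ⟨compl M, hA.mem_iff.2 ⟨M, le_rfl, rfl⟩, mem_compl.2 hx⟩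

theorem IsFamily.frankl {M : Sublattice L} {A : Finset (Finset L)} (hA : IsFamily M A)
    (hM : M ≠ ⊤) : ∃ x ∈ A.sup id, A.card ≤ 2 * (A.filter fun X => x ∈ X).card := by
  obtain ⟨x, hx, h⟩ := intermediate M hM
  refine ⟨x, hA.mem_sup.2 hx, ?_⟩
  have h1 := hA.card_filter x
  rw [← hA.card] at h
  omega

theorem IsFamily.poonen {M : Sublattice L} {A : Finset (Finset L)} (hA : IsFamily M A)
    (hsep : ∀ x ∈ A.sup id, ∀ y ∈ A.sup id, x ≠ y →
      ∃ S ∈ A, (x ∈ S ∧ y ∉ S) ∨ (y ∈ S ∧ x ∉ S))
    (hpow : A ≠ (A.sup id).powerset) :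
    ∃ x ∈ A.sup id, 2 * (A.filter (fun S => x ∈ S)).card > A.card := by
  rcases strict_or_good M with ⟨x, hx, h⟩ | hgood
  · refine ⟨x, hA.mem_sup.2 hx, ?_⟩
    have h1 := hA.card_filter x
    rw [← hA.card] at h
    omega
  · exfalso
    apply hpow
    have hcls : ∀ z, z ∉ M → ∀ y, cls M z y → y = z := by
      intro z hz y hy
      by_contra hne
      have hyM : y ∉ M := fun h => hz ((hy M le_rfl).1 h)
      obtain ⟨X, hX, h⟩ := hsep y (hA.mem_sup.2 hyM) z (hA.mem_sup.2 hz) hne
      rw [hA.mem_iff] at hX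
      obtain ⟨S, hS, rfl⟩ := hX
      rw [mem_compl, mem_compl] at h
      have := hy S hS
      tauto
    apply Finset.Subset.antisymm
    · intro X hX
      rw [Finset.mem_powerset]
      intro x hx
      exact Finset.mem_sup.2 ⟨X, hX, hx⟩
    · intro X hX
      rw [Finset.mem_powerset] at hX
      induction X using Finset.induction_on with
      | empty =>
        rw [hA.mem_iff]
        refine ⟨⊤, le_top, Finset.ext fun x => ?_⟩
        rw [mem_compl]
        simp
      | insert z X hz ih =>
        have h1 := ih fun x hx => hX (Finset.mem_insert_of_mem hx)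
        have hzM : z ∉ M := hA.mem_sup.1 (hX (Finset.mem_insert_self z X))
        rw [hA.mem_iff] at h1 ⊢
        obtain ⟨S, hS, rfl⟩ := h1
        obtain ⟨⟨T, hT, hT'⟩, -⟩ := hgood z hzM S hS
        refine ⟨T, hT, Finset.ext fun x => ?_⟩
        rw [mem_compl, hT', Finset.mem_insert, mem_compl]
        constructor
        · intro h
          by_contra hno
          push Not at hno
          exact h ⟨hno.2, fun h3 => hno.1 (hcls z hzM x h3)⟩
        · rintro (rfl | h) ⟨h3, h4⟩
          · exact h4 fun _ _ => Iff.rfl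
          · exact h h3

end family

section order
variable {L : Type*} [DistribLattice L] [Finite L]

/-- a one element sublattice -/
def single (x : L) : Sublattice L where
  carrier := {x}
  supClosed' := by
    rintro a rfl b rfl
    simp
  infClosed' := by
    rintro a rfl b rfl
    simp

theorem mem_single {x y : L} : y ∈ single x ↔ y = x := Iff.rfl

/-- all sublattices of a lattice which is not a chain -/
theorem strict_bot (hL : ∃ a b : L, ¬ a ≤ b ∧ ¬ b ≤ a) :
    ∃ x : L, 2 * {S : Sublattice L | x ∈ S}.ncard < {S : Sublattice L | True}.ncard := by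
  have hcls : ∀ z y : L, cls ⊥ z y → y = z := by
    intro z y hy
    exact mem_single.1 ((hy (single z) bot_le).2 (mem_single.2 rfl))
  rcases strict_or_good (⊥ : Sublattice L) with ⟨x, -, h⟩ | hgood
  · refine ⟨x, ?_⟩
    simpa using h
  · exfalso
    obtain ⟨a, b, hab, hba⟩ := hL
    have hne : a ≠ b := fun h => hab h.le
    have hnot : ∀ z : L, z ∉ (⊥ : Sublattice L) := fun z hz => hz.elim
    obtain ⟨-, T, -, hT⟩ := hgood b (hnot b) (single a) bot_le
    have haT : a ∈ T := (hT a).2 (Or.inl (mem_single.2 rfl))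
    have hbT : b ∈ T := (hT b).2 (Or.inr fun _ _ => Iff.rfl)
    have hsup : a ⊔ b ∈ T := T.supClosed' haT hbT
    rcases (hT _).1 hsup with h | h
    · rw [mem_single] at h
      exact hba (h ▸ le_sup_right)
    · have := hcls _ _ h
      exact hab (this ▸ le_sup_left)

/-- every union-closed family whose inclusion order is dual to the lattice of all sublattices -/
theorem dual_order {α : Type*} [DecidableEq α] (hL : ∃ a b : L, ¬ a ≤ b ∧ ¬ b ≤ a)
    (A : Finset (Finset α)) (hA : ∀ X ∈ A, ∀ Y ∈ A, X ∪ Y ∈ A)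
    (e : {X // X ∈ A} ≃o (Sublattice L)ᵒᵈ) :
    ∃ i ∈ A.sup id, 2 * (A.filter (fun S => i ∈ S)).card > A.card := by
  classical
  have hfinS : Finite (Sublattice L) :=
    Finite.of_injective (fun S : Sublattice L => (S : Set L)) SetLike.coe_injective
  obtain ⟨x, hx⟩ := strict_bot hL
  let T : {X // X ∈ A} := e.symm (OrderDual.toDual ⊥)
  let C : {X // X ∈ A} := e.symm (OrderDual.toDual (single x))
  have hCT : C < T := by
    refine e.symm.lt_iff_lt.2 ?_
    rw [OrderDual.toDual_lt_toDual, bot_lt_iff_ne_bot]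
    intro h
    have h1 : x ∈ (⊥ : Sublattice L) := h ▸ mem_single.2 rfl
    exact h1.elim
  have hss : (C : Finset α) ⊂ T := hCT
  obtain ⟨i, hiT, hiC⟩ := Finset.exists_of_ssubset hss
  refine ⟨i, Finset.mem_sup.2 ⟨T, T.2, hiT⟩, ?_⟩
  have hkey : ∀ X : {X // X ∈ A}, i ∉ X.1 → x ∈ OrderDual.ofDual (e X) := by
    intro X hX
    let Y : {X // X ∈ A} := ⟨X.1 ∪ C.1, hA _ X.2 _ C.2⟩
    have hCY : C ≤ Y := Finset.subset_union_right
    have hXY : X ≤ Y := Finset.subset_union_left
    have h1 : OrderDual.ofDual (e Y) ≤ single x := by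
      have := e.le_iff_le.2 hCY
      rw [OrderIso.apply_symm_apply] at this
      exact this
    have h2 : OrderDual.ofDual (e Y) ≠ ⊥ := by
      intro h
      have hYT : Y = T := by
        apply e.injective
        rw [OrderIso.apply_symm_apply]
        exact congrArg OrderDual.toDual h
      have : i ∈ Y.1 := hYT ▸ hiT
      rcases Finset.mem_union.1 this with h3 | h3
      · exact hX h3
      · exact hiC h3
    have h3 : x ∈ OrderDual.ofDual (e Y) := by
      by_contra hno
      apply h2
      rw [eq_bot_iff]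
      intro y hy
      have := mem_single.1 (h1 hy)
      exact (hno (this ▸ hy)).elim
    have h4 : OrderDual.ofDual (e Y) ≤ OrderDual.ofDual (e X) := e.le_iff_le.2 hXY
    exact h4 h3
  have hcard : A.card = {S : Sublattice L | True}.ncard := by
    rw [← Set.ncard_coe_finset A, ← Nat.card_coe_set_eq, ← Nat.card_coe_set_eq]
    exact Nat.card_congr ((Equiv.refl _).trans
      ((e.toEquiv.trans OrderDual.ofDual).trans (Equiv.Set.univ _).symm))
  have hnot : (A.filter fun X => ¬ i ∈ X).card ≤ {S : Sublattice L | x ∈ S}.ncard := by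
    rw [← Set.ncard_coe_finset]
    refine Set.ncard_le_ncard_of_injOn
      (fun X => if h : X ∈ A then OrderDual.ofDual (e ⟨X, h⟩) else ⊥) ?_ ?_ (Set.toFinite _)
    · intro X hX
      rw [Finset.mem_coe, Finset.mem_filter] at hX
      simp only [hX.1, dif_pos]
      exact hkey ⟨X, hX.1⟩ hX.2
    · intro X hX Y hY hXY
      rw [Finset.mem_coe, Finset.mem_filter] at hX hY
      simp only [hX.1, hY.1, dif_pos] at hXY
      have := e.injective (OrderDual.ofDual.injective hXY)
      exact congrArg Subtype.val this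
  have hsum := Finset.card_filter_add_card_filter_not (s := A) (fun X => i ∈ X)
  rw [← hcard] at hx
  omega

end order

end Pool.Agent.H61UC
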