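import Pool.Agent.H61UC.Core

/-!
The equality case of the core lemma.
-/

set_option autoImplicit false

namespace Pool.Agent.H61UC

variable {X : Type*} {P Q : X → X → Prop} {p : X}

/-- If some preorder with a new element below `p` is not an image, the inequality is strict. -/
theorem strict_of_unhit [Finite X] (h : Ctx P Q p) {w0 : X} (hw0 : V1 P Q p w0)
    {S0 : X → X → Prop} (hS0 : S0 ∈ Ns P Q p) (hun : ∀ R ∈ Cs P Q p, ¬ Img P Q p w0 R S0) :
    2 * (Cs P Q p).ncard < (Iv P Q).ncard := by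
  classical
  have hfin : ∀ s : Set (X → X → Prop), s.Finite := fun s => Set.toFinite s
  choose! f hf using fun R (hR : R ∈ Cs P Q p) => exists_img h hw0 hR
  have hle : (Cs P Q p).ncard ≤ (Ns P Q p \ {S0}).ncard := by
    refine Set.ncard_le_ncard_of_injOn f (fun R hR => ⟨(hf R hR).1, fun he => ?_⟩) ?_ (hfin _)
    · have he' : f R = S0 := he
      exact hun R hR (he' ▸ (hf R hR).2)
    · intro R₁ h₁ R₂ h₂ he
      exact img_inj h hw0 h₁ h₂ (hf R₁ h₁).2 (he ▸ (hf R₂ h₂).2)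
  have hlt : (Ns P Q p \ {S0}).ncard < (Ns P Q p).ncard :=
    Set.ncard_sdiff_singleton_lt_of_mem hS0 (hfin _)
  have hunion : Cs P Q p ∪ Ns P Q p = Iv P Q := by
    ext R
    constructor
    · rintro (hR | hR)
      · exact hR.1
      · exact hR.1
    · intro hR
      by_cases hc : ∀ x, R x p → P x p
      · exact Or.inl ⟨hR, hc⟩
      · push Not at hc
        exact Or.inr ⟨hR, hc⟩
  have hdisj : Disjoint (Cs P Q p) (Ns P Q p) := by
    rw [Set.disjoint_left]
    rintro R h₁ ⟨_, x, hx, hx'⟩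
    exact hx' (h₁.2 x hx)
  have := Set.ncard_union_eq hdisj (hfin _) (hfin _)
  rw [hunion] at this
  omega

/-- type B gives an element of the class of `p` below `p` -/
theorem typeB_elt {R : X → X → Prop} (hR : R ∈ Cs P Q p) (hB : ¬ TypeA P p R) :
    ∃ t, t ≠ p ∧ P t p ∧ Q p t := by
  unfold TypeA at hB
  push Not at hB
  obtain ⟨t, htp, hpt, hPt⟩ := hB
  exact ⟨t, htp, hPt, hR.1.2.2 _ _ hpt⟩

theorem Q_mem (h : Ctx P Q p) {v : X} (hv : V1 P Q p v) : Q ∈ Ns P Q p :=
  ⟨⟨h.hQ, h.hPQ, fun _ _ hxy => hxy⟩, v, hv.1, hv.2⟩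

/-- `Q` itself is not an image of a preorder of the last kind if no element above `p` is new. -/
theorem Q_unhit_K3 (h : Ctx P Q p) {w0 x d : X} (hx : V1 P Q p x)
    (hd : d ≠ p) (hdp : P d p) (hxd : Q x d) (hB : ∀ b, b ≠ p → P p b → ¬ Q b p)
    {R : X → X → Prop} (hR : R ∈ Cs P Q p) : ¬ Img P Q p w0 R Q := by
  have hK3 : K3 P p Q := ⟨x, d, hx.ne h, hd, hxd, hdp, hx.2⟩
  rintro (⟨_, e⟩ | ⟨_, _, e⟩ | ⟨_, w, _, _, e⟩ | ⟨_, _, s, s', _, _, _, e⟩ | ⟨hBR, hsg, e⟩)
  · exact not_K3 hR (e ▸ hK3)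
  · exact not_K3 hR (e ▸ hK3)
  · exact not_K3 hR (e ▸ hK3)
  · exact not_K3 hR (e ▸ hK3)
  · obtain ⟨t, htp, hPt, hQt⟩ := typeB_elt hR hBR
    unfold TypeA at hBR
    push Not at hBR
    obtain ⟨t₁, ht₁p, hpt₁, hPt₁⟩ := hBR
    have h1 : Am P p (Rt P Q p R) t := by
      have h2 : ext p (Rt P Q p R) (fun x => Q x p) (Am P p (Rt P Q p R)) p t := e ▸ hQt
      exact (ext_a htp).1 h2
    obtain ⟨b, hb, hpb, hbt⟩ := h1
    have h3 : Q b t := by
      rcases hbt with h4 | ⟨h4, _, _, h5⟩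
      · exact hR.1.2.2 _ _ h4
      · exact (hB b hb hpb h4.1).elim
    exact hB b hb hpb (h.hQ.trans _ _ _ h3 (h.hPQ _ _ hPt))

/-- Strictness if only one new element is possible but it can also be put below a smaller one. -/
theorem strict_N2 [Finite X] (h : Ctx P Q p) {v0 d : X} (hv : V1 P Q p v0)
    (huniq : ∀ y, V1 P Q p y → y = v0) (hpv : ¬ P p v0) (hd : d ≠ p) (hdp : P d p)
    (hvd : Q v0 d) : 2 * (Cs P Q p).ncard < (Iv P Q).ncard := by
  refine strict_of_unhit h hv (Q_mem h hv) fun R hR => Q_unhit_K3 h hv hd hdp hvd ?_ hR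
  intro b hb hpb hbp
  have h1 : V1 P Q p b := ⟨hbp, fun h2 => hb (h.anti b h2 hpb)⟩
  rw [huniq b h1] at hpb
  exact hpv hpb

/-- Strictness if at least two new elements are possible. -/
theorem strict_N1 [Finite X] (h : Ctx P Q p) (hanti : ∀ x y, P x y → P y x → x = y) {u v : X}
    (hu : V1 P Q p u) (hv : V1 P Q p v) (huv : u ≠ v) :
    2 * (Cs P Q p).ncard < (Iv P Q).ncard := by
  classical
  by_cases hB : ∃ b, b ≠ p ∧ P p b ∧ Q b p
  · -- there is an element of the class of `p` above `p`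
    obtain ⟨b, hb, hpb, hbp⟩ := hB
    have hbV : V1 P Q p b := ⟨hbp, fun h2 => hb (h.anti b h2 hpb)⟩
    have htop : ∀ x, Q x p → P x b := h.h2 b hpb hb
    by_cases hD : ∃ x d, V1 P Q p x ∧ d ≠ p ∧ P d p ∧ Q x d
    · obtain ⟨x, d, hx, hd, hdp, hxd⟩ := hD
      obtain ⟨k, hk, hkb, hkd⟩ : ∃ k, V1 P Q p k ∧ k ≠ b ∧ Q k d := by
        by_cases hxb : x = b
        · subst hxb
          obtain ⟨k, hk, hkb⟩ : ∃ k, V1 P Q p k ∧ k ≠ x := by
            by_cases hux : u = x
            · exact ⟨v, hv, fun h3 => huv (hux.trans h3.symm)⟩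
            · exact ⟨u, hu, hux⟩
          exact ⟨k, hk, hkb, h.hQ.trans _ _ _ (h.hPQ _ _ (htop k hk.1)) hxd⟩
        · exact ⟨x, hx, hxb, hxd⟩
      exact core_strict h hk hbV (fun h3 => hkb (hanti _ _ (htop k hk.1) h3)) hd hdp hkd
    · push Not at hD
      have hnoB : ∀ R ∈ Cs P Q p, TypeA P p R := by
        intro R hR
        by_contra hBR
        obtain ⟨t, htp, hPt, hQt⟩ := typeB_elt hR hBR
        exact hD b t hbV htp hPt (h.hQ.trans _ _ _ hbp hQt)
      obtain ⟨k, hk, hkb⟩ : ∃ k, V1 P Q p k ∧ k ≠ b := by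
        by_cases hub : u = b
        · exact ⟨v, hv, fun h3 => huv (hub.trans h3.symm)⟩
        · exact ⟨u, hu, hub⟩
      -- identification of `p` with `w` over `P`
      have hmem : ∀ w, W P Q p P w → ext p P (fun x => P x w) (fun y => P w y) ∈ Ns P Q p := by
        intro w hw
        refine ⟨?_, w, (ext_d (hw.1.ne h)).2 (h.hP.refl w), hw.1.2⟩
        refine ext_mem h (fun x _ => h.hP.refl x) (fun x y z _ _ _ => h.hP.trans x y z)
          (fun x y _ _ h3 => h3) (fun x y _ _ => h.hPQ x y)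
          (fun x y _ _ hxy hy => h.hP.trans _ _ _ hxy hy)
          (fun x y _ _ hxy hx => h.hP.trans _ _ _ hx hxy)
          (fun x y _ _ hx hy => h.hP.trans _ _ _ hx hy) ?_ ?_ ?_ ?_
        · intro x hx hxp
          exact hw.2.2 x hx hxp
        · intro x _ hx
          exact h.hQ.trans _ _ _ (h.hPQ _ _ hx) hw.1.1
        · intro y hy hpy
          exact h.h2 y hpy hy w hw.1.1
        · intro y _ hy
          exact h.hQ.trans _ _ _ hw.2.1 (h.hPQ _ _ hy)
      have hbW : W P Q p P b := ⟨hbV, h.hPQ _ _ hpb, fun d _ hd => h.hP.trans _ _ _ hd hpb⟩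
      by_cases hall : ∀ y, V1 P Q p y → W P Q p P y
      · refine strict_of_unhit h hbV (hmem k (hall k hk)) fun R hR => ?_
        rintro (⟨_, e⟩ | ⟨_, _, e⟩ | ⟨hBR, _⟩ | ⟨hBR, _⟩ | ⟨hBR, _⟩)
        · obtain ⟨_, hd, ha⟩ := ext_inj e
          exact no_equiv hR ((hd k (hk.ne h)).1 (h.hP.refl k)) ((ha k (hk.ne h)).1 (h.hP.refl k))
        · obtain ⟨hoff, hd, ha⟩ := ext_inj e
          have h3 : P k b := htop k hk.1
          have h4 : R b k := (ha k (hk.ne h)).1 (h.hP.refl k)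
          exact hkb (hanti _ _ h3 ((hoff b k (hbV.ne h) (hk.ne h)).2 h4))
        · exact hBR (hnoB R hR)
        · exact hBR (hnoB R hR)
        · exact hBR (hnoB R hR)
      · refine strict_of_unhit h hbV (hmem b hbW) fun R hR => ?_
        rintro (⟨_, e⟩ | ⟨_, hR2, e⟩ | ⟨hBR, _⟩ | ⟨hBR, _⟩ | ⟨hBR, _⟩)
        · obtain ⟨_, hd, ha⟩ := ext_inj e
          exact no_equiv hR ((hd b hb).1 (h.hP.refl b)) ((ha b hb).1 (h.hP.refl b))
        · obtain ⟨hoff, hd, ha⟩ := ext_inj e
          apply hall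
          intro y hy
          exact W_of_above hR (fun x z hx hz => (hoff x z hx hz).symm) hy (hy.ne h) (hR2 y hy)
        · exact hBR (hnoB R hR)
        · exact hBR (hnoB R hR)
        · exact hBR (hnoB R hR)
  · push Not at hB
    by_cases hD : ∃ x d, V1 P Q p x ∧ d ≠ p ∧ P d p ∧ Q x d
    · obtain ⟨x, d, hx, hd, hdp, hxd⟩ := hD
      exact strict_of_unhit h hx (Q_mem h hx) fun R hR => Q_unhit_K3 h hx hd hdp hxd hB hR
    · push Not at hD
      have hnoB : ∀ R ∈ Cs P Q p, TypeA P p R := by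
        intro R hR
        by_contra hBR
        obtain ⟨t, htp, hPt, hQt⟩ := typeB_elt hR hBR
        exact hD u t hu htp hPt (h.hQ.trans _ _ _ hu.1 hQt)
      by_cases hC : ∃ c, V1 P Q p c ∧ Q p c
      · obtain ⟨c, hc, hpc⟩ := hC
        by_cases hVC : ∀ y, V1 P Q p y → Q p y
        · -- all new elements are in the class of `p`
          let R' : X → X → Prop := fun x y => P x y ∨ (P x p ∧ ∃ z, V1 P Q p z ∧ P z y)
          have hR'Q : ∀ x y, R' x y → Q x y := by
            rintro x y (h3 | ⟨h3, z, hz, h4⟩)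
            · exact h.hPQ _ _ h3
            · exact h.hQ.trans _ _ _ (h.hPQ _ _ h3)
                (h.hQ.trans _ _ _ (hVC z hz) (h.hPQ _ _ h4))
          have hR't : ∀ x y z, R' x y → R' y z → R' x z := by
            rintro x y z (h3 | ⟨h3, z₁, hz₁, h4⟩) (h5 | ⟨h5, z₂, hz₂, h6⟩)
            · exact Or.inl (h.hP.trans _ _ _ h3 h5)
            · exact Or.inr ⟨h.hP.trans _ _ _ h3 h5, z₂, hz₂, h6⟩
            · exact Or.inr ⟨h3, z₁, hz₁, h.hP.trans _ _ _ h4 h5⟩
            · exact Or.inr ⟨h3, z₂, hz₂, h6⟩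
          have hmem : ext p R' (fun x => R' x v) (fun y => R' v y) ∈ Ns P Q p := by
            refine ⟨?_, v, (ext_d (hv.ne h)).2 (Or.inl (h.hP.refl v)), hv.2⟩
            refine ext_mem h (fun x _ => Or.inl (h.hP.refl x)) (fun x y z _ _ _ => hR't x y z)
              (fun x y _ _ h3 => Or.inl h3) (fun x y _ _ => hR'Q x y)
              (fun x y _ _ hxy hy => hR't _ _ _ hxy hy)
              (fun x y _ _ hxy hx => hR't _ _ _ hx hxy)
              (fun x y _ _ hx hy => hR't _ _ _ hx hy) ?_ ?_ ?_ ?_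
            · intro x _ hxp
              exact Or.inr ⟨hxp, v, hv, h.hP.refl v⟩
            · intro x _ hx
              exact h.hQ.trans _ _ _ (hR'Q _ _ hx) hv.1
            · intro y hy hpy
              exact Or.inl (h.h2 y hpy hy v hv.1)
            · intro y _ hy
              exact h.hQ.trans _ _ _ (hVC v hv) (hR'Q _ _ hy)
          refine strict_of_unhit h hu hmem fun R hR => ?_
          rintro (⟨_, e⟩ | ⟨_, _, e⟩ | ⟨hBR, _⟩ | ⟨hBR, _⟩ | ⟨hBR, _⟩)
          · obtain ⟨_, hd, ha⟩ := ext_inj e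
            exact no_equiv hR ((hd v (hv.ne h)).1 (Or.inl (h.hP.refl v)))
              ((ha v (hv.ne h)).1 (Or.inl (h.hP.refl v)))
          · obtain ⟨hoff, hd, ha⟩ := ext_inj e
            have h3 : R v u := (hd v (hv.ne h)).1 (Or.inl (h.hP.refl v))
            have h4 : R u v := (ha v (hv.ne h)).1 (Or.inl (h.hP.refl v))
            have h5 : R' v u := (hoff v u (hv.ne h) (hu.ne h)).2 h3
            have h6 : R' u v := (hoff u v (hu.ne h) (hv.ne h)).2 h4
            have h7 : P v u := h5.resolve_right fun h8 => hv.2 h8.1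
            have h9 : P u v := h6.resolve_right fun h8 => hu.2 h8.1
            exact huv (hanti _ _ h9 h7)
          · exact hBR (hnoB R hR)
          · exact hBR (hnoB R hR)
          · exact hBR (hnoB R hR)
        · push Not at hVC
          obtain ⟨y, hy, hpy⟩ := hVC
          refine strict_of_unhit h hc (Q_mem h hc) fun R hR => ?_
          rintro (⟨_, e⟩ | ⟨_, hR2, e⟩ | ⟨hBR, _⟩ | ⟨hBR, _⟩ | ⟨hBR, _⟩)
          · have h3 : ext p R (fun x => Q x p ∧ ¬ R p x) (Am P p R) p c := e ▸ hpc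
            obtain ⟨b, hb, hpb, hbc⟩ := (ext_a (hc.ne h)).1 h3
            exact hB b hb hpb (h.hQ.trans _ _ _ (hR.1.2.2 _ _ hbc) hc.1)
          · exact hpy (hR.1.2.2 _ _ (hR2 y hy))
          · exact hBR (hnoB R hR)
          · exact hBR (hnoB R hR)
          · exact hBR (hnoB R hR)
      · push Not at hC
        -- a minimal new element
        obtain ⟨m, hm, hmin⟩ : ∃ m, V1 P Q p m ∧ ∀ y, V1 P Q p y → P y m → y = m := by
          obtain ⟨m, hm, hmin⟩ := Set.exists_min_image {y | V1 P Q p y}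
            (fun y => {x | P x y}.ncard) (Set.toFinite _) ⟨u, hu⟩
          refine ⟨m, hm, fun y hy hym => ?_⟩
          by_contra hne
          have h3 := hmin y hy
          have h4 : {x | P x y}.ncard < {x | P x m}.ncard := by
            refine Set.ncard_lt_ncard ⟨fun x hx => h.hP.trans _ _ _ hx hym, fun hsub => hne ?_⟩
              (Set.toFinite _)
            exact hanti _ _ hym (hsub (h.hP.refl m))
          omega
        obtain ⟨y, hy, hym⟩ : ∃ y, V1 P Q p y ∧ y ≠ m := by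
          by_cases hum : u = m
          · exact ⟨v, hv, fun h3 => huv (hum.trans h3.symm)⟩
          · exact ⟨u, hu, hum⟩
        have hmem : (fun x y => P x y ∨ (P x m ∧ P p y)) ∈ Ns P Q p := by
          refine ⟨⟨⟨fun x => Or.inl (h.hP.refl x), ?_⟩, fun x y hxy => Or.inl hxy, ?_⟩, m,
            Or.inr ⟨h.hP.refl m, h.hP.refl p⟩, hm.2⟩
          · rintro x y z (h1 | ⟨h1, h2⟩) (h3 | ⟨h3, h4⟩)
            · exact Or.inl (h.hP.trans _ _ _ h1 h3)
            · exact Or.inr ⟨h.hP.trans _ _ _ h1 h3, h4⟩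
            · exact Or.inr ⟨h1, h.hP.trans _ _ _ h2 h3⟩
            · exact Or.inr ⟨h1, h4⟩
          · rintro x y (h1 | ⟨h1, h2⟩)
            · exact h.hPQ _ _ h1
            · exact h.hQ.trans _ _ _ (h.hPQ _ _ h1) (h.hQ.trans _ _ _ hm.1 (h.hPQ _ _ h2))
        refine strict_of_unhit h hm hmem fun R hR => ?_
        rintro (⟨_, e⟩ | ⟨_, hR2, e⟩ | ⟨hBR, _⟩ | ⟨hBR, _⟩ | ⟨hBR, _⟩)
        · have h3 : Q y p ∧ ¬ R p y := ⟨hy.1, fun h4 => hC y hy (hR.1.2.2 _ _ h4)⟩
          have h4 : ext p R (fun x => Q x p ∧ ¬ R p x) (Am P p R) y p := (ext_d (hy.ne h)).2 h3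
          rw [← e] at h4
          rcases h4 with h5 | h5
          · exact hy.2 h5
          · exact hym (hmin y hy h5.1)
        · exact hC m hm (hR.1.2.2 _ _ (hR2 m hm))
        · exact hBR (hnoB R hR)
        · exact hBR (hnoB R hR)
        · exact hBR (hnoB R hR)

/-- **Strictness** unless there is exactly one new element `v0`, and this element is above `p` or
cannot be put below a smaller element. -/
theorem strict_or [Finite X] (h : Ctx P Q p) (hanti : ∀ x y, P x y → P y x → x = y)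
    (hv : ∃ v, V1 P Q p v) :
    2 * (Cs P Q p).ncard < (Iv P Q).ncard ∨
      ∃ v0, V1 P Q p v0 ∧ (∀ y, V1 P Q p y → y = v0) ∧
        (P p v0 ∨ ∀ d, d ≠ p → P d p → ¬ Q v0 d) := by
  obtain ⟨v0, hv0⟩ := hv
  by_cases huniq : ∀ y, V1 P Q p y → y = v0
  · by_cases hpv : P p v0
    · exact Or.inr ⟨v0, hv0, huniq, Or.inl hpv⟩
    · by_cases hd : ∀ d, d ≠ p → P d p → ¬ Q v0 d
      · exact Or.inr ⟨v0, hv0, huniq, Or.inr hd⟩
      · push Not at hd
        obtain ⟨d, hd, hdp, hvd⟩ := hd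
        exact Or.inl (strict_N2 h hv0 huniq hpv hd hdp hvd)
  · push Not at huniq
    obtain ⟨y, hy, hyv⟩ := huniq
    exact Or.inl (strict_N1 h hanti hy hv0 hyv)

end Pool.Agent.H61UC
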