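import Pool.Agent.H61UC.Sub
import Pool.Agent.H61UC.Strict

/-!
Poonen's strengthening of the union-closed sets conjecture for the sublattices between two given
sublattices of a finite distributive lattice.
-/

set_option autoImplicit false

namespace Pool.Agent.H61UC

variable {L : Type*} [DistribLattice L]

/-- `y` and `z` lie in the same sublattices above `M`. -/
def cls (M : Sublattice L) (z y : L) : Prop := ∀ S : Sublattice L, M ≤ S → (y ∈ S ↔ z ∈ S)

/-- Classes can be added to and removed from all sublattices above `M`. -/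
def Good (M : Sublattice L) : Prop :=
  ∀ z, z ∉ M → ∀ S : Sublattice L, M ≤ S →
    (∃ T : Sublattice L, M ≤ T ∧ ∀ s, s ∈ T ↔ s ∈ S ∧ ¬ cls M z s) ∧
      ∃ T : Sublattice L, M ≤ T ∧ ∀ s, s ∈ T ↔ s ∈ S ∨ cls M z s

theorem mem_iff [Finite L] (S : Sublattice L) (p : H L) {x : L} (hx : p.1 x)
    (hmin : ∀ s, p.1 s → x ≤ s) :
    x ∈ S ↔ ∀ φ : H L, rel (S : Set L) φ p → rel Set.univ φ p := by
  constructor
  · intro hxS φ hφ s _ hs
    exact φ.mono (hmin s hs) (hφ x hxS hx)
  · intro hcl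
    apply mem_of_rel S
    intro φ ψ h hψ
    have h1 : rel (S : Set L) ψ p := fun s _ hs => ψ.mono (hmin s hs) hψ
    exact hcl φ ((rel_pre _).trans _ _ _ h h1) x trivial hx

/-- the sublattice of the elements `s` with `p s → v s` -/
def impl (p v : H L) : Sublattice L where
  carrier := {s | p.1 s → v.1 s}
  supClosed' := by
    intro a ha b hb hab
    rcases (p.2.1 a b).1 hab with h | h
    · exact (v.2.1 a b).2 (Or.inl (ha h))
    · exact (v.2.1 a b).2 (Or.inr (hb h))
  infClosed' := by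
    intro a ha b hb hab
    have h := (p.2.2 a b).1 hab
    exact (v.2.2 a b).2 ⟨ha h.1, hb h.2⟩

theorem mem_impl {p v : H L} {s : L} : s ∈ impl p v ↔ (p.1 s → v.1 s) := Iff.rfl

section free
variable [Finite L] {M : Sublattice L} {p v0 : H L} {x : L}

/-- one free element: sublattices without `x` avoid all `s` with `p s` and not `v0 s` -/
theorem free_avoid (hx : p.1 x) (hmin : ∀ s, p.1 s → x ≤ s)
    (huniq : ∀ y, V1 (rel Set.univ) (rel (M : Set L)) p y → y = v0) {S : Sublattice L}
    (hS : M ≤ S) (hxS : x ∉ S) : rel (S : Set L) v0 p := by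
  rw [mem_iff S p hx hmin] at hxS
  push Not at hxS
  obtain ⟨φ, h1, h2⟩ := hxS
  have h3 : V1 (rel Set.univ) (rel (M : Set L)) p φ := ⟨fun s hs => h1 s (hS hs), h2⟩
  rwa [huniq φ h3] at h1

theorem free_step (hx : p.1 x) (hmin : ∀ s, p.1 s → x ≤ s)
    (huniq : ∀ y, V1 (rel Set.univ) (rel (M : Set L)) p y → y = v0)
    (hcond : rel Set.univ p v0 ∨
      ∀ d, d ≠ p → rel Set.univ d p → ¬ rel (M : Set L) v0 d)
    {S : Sublattice L} (hS : M ≤ S) (hxS : x ∉ S) :
    ∃ T : Sublattice L, S ≤ T ∧ x ∈ T ∧ ∀ s, s ∈ S ↔ s ∈ T ∧ ¬ (p.1 s ∧ ¬ v0.1 s) := by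
  classical
  have hv := free_avoid hx hmin huniq hS hxS
  let G : H L → H L → Prop := fun φ ψ =>
    rel (S : Set L) φ ψ ∧ (rel Set.univ ψ p → rel Set.univ φ p)
  have hST : S ≤ ofRel G := by
    intro s hs φ ψ hG hψ
    exact hG.1 s hs hψ
  refine ⟨ofRel G, hST, ?_, ?_⟩
  · intro φ ψ hG hψ
    exact hG.2 (fun s _ hs => ψ.mono (hmin s hs) hψ) x trivial hx
  · intro s
    constructor
    · intro hs
      exact ⟨hST hs, fun h => h.2 (hv s hs h.1)⟩
    · rintro ⟨hsT, hsZ⟩
      have hsZ' : p.1 s → v0.1 s := fun h => by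
        by_contra h2
        exact hsZ ⟨h, h2⟩
      apply mem_of_rel S
      intro φ ψ h hψ
      by_cases hc : rel Set.univ ψ p → rel Set.univ φ p
      · exact hsT φ ψ ⟨h, hc⟩ hψ
      · push Not at hc
        obtain ⟨hψp, hφp⟩ := hc
        have h1 : rel (S : Set L) φ p :=
          (rel_pre _).trans _ _ _ h fun s _ hs => hψp s trivial hs
        have hφ : φ = v0 := huniq φ ⟨fun s hs => h1 s (hS hs), hφp⟩
        subst hφ
        by_cases hψ' : ψ = p
        · subst hψ'
          exact hsZ' hψ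
        · rcases hcond with h2 | h2
          · have h3 : G p ψ := by
              refine ⟨(rel_pre _).trans _ _ _ (fun s _ hs => h2 s trivial hs) h, fun _ => ?_⟩
              exact fun s _ hs => hs
            exact hsZ' (hsT p ψ h3 hψ)
          · exact (h2 ψ hψ' hψp fun s hs => h s (hS hs)).elim

end free

theorem good_top : Good (⊤ : Sublattice L) := fun z hz => absurd (by trivial) hz

/-- **Poonen's strengthening for intermediate sublattices.** -/
theorem strict_or_good [Finite L] (M : Sublattice L) :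
    (∃ x, x ∉ M ∧ 2 * {S : Sublattice L | M ≤ S ∧ x ∈ S}.ncard <
      {S : Sublattice L | M ≤ S}.ncard) ∨ Good M := by
  classical
  have hfinS : Finite (Sublattice L) :=
    Finite.of_injective (fun S : Sublattice L => (S : Set L)) SetLike.coe_injective
  have hfin : ∀ s : Set (Sublattice L), s.Finite := fun s => Set.toFinite s
  induction hn : ((M : Set L)ᶜ).ncard using Nat.strong_induction_on generalizing M with
  | _ n ih =>
    by_cases hM : M = ⊤
    · subst hM
      exact Or.inr good_top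
    by_cases hstr : ∃ x, x ∉ M ∧ 2 * {S : Sublattice L | M ≤ S ∧ x ∈ S}.ncard <
        {S : Sublattice L | M ≤ S}.ncard
    · exact Or.inl hstr
    refine Or.inr ?_
    push Not at hstr
    have hne : ∃ φ ψ : H L, rel (M : Set L) φ ψ ∧ ¬ rel Set.univ φ ψ := by
      by_contra hno
      push Not at hno
      apply hM
      rw [eq_top_iff]
      intro s _
      apply mem_of_rel M
      intro φ ψ h
      exact hno φ ψ h s trivial
    obtain ⟨p, hctx, hV⟩ := exists_ctx (rel_pre Set.univ) (rel_pre (M : Set L))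
      (fun φ ψ h s _ => h s trivial) rel_anti hne
    have hpne : ∃ u ∈ (⊤ : Sublattice L), p.1 u := by
      obtain ⟨v, hv⟩ := hV
      by_contra hno
      push Not at hno
      exact hv.2 fun s _ hs => (hno s (by trivial) hs).elim
    obtain ⟨x, -, hx, hmin'⟩ := exists_min (⊤ : Sublattice L) p hpne
    have hmin : ∀ s, p.1 s → x ≤ s := fun s hs => hmin' s (by trivial) hs
    have hxM : x ∉ M := by
      intro hxM
      obtain ⟨v, hv⟩ := hV
      exact hv.2 fun s _ hs => v.mono (hmin s hs) (hv.1 x hxM hx)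
    have hhalf : 2 * {S : Sublattice L | M ≤ S ∧ x ∈ S}.ncard ≤
        {S : Sublattice L | M ≤ S}.ncard := by
      rw [ncard_eq, ncard_eq_Cs M p hx hmin]
      exact core hctx hV
    rcases strict_or hctx rel_anti hV with hs | ⟨v0, hv0, huniq, hcond⟩
    · exfalso
      have := hstr x hxM
      rw [ncard_eq, ncard_eq_Cs M p hx hmin] at this
      omega
    -- the free case
    let Z : L → Prop := fun s => p.1 s ∧ ¬ v0.1 s
    have hstep : ∀ S : Sublattice L, M ≤ S → x ∉ S →
        ∃ T : Sublattice L, S ≤ T ∧ x ∈ T ∧ ∀ s, s ∈ S ↔ s ∈ T ∧ ¬ Z s :=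
      fun S hS hxS => free_step hx hmin huniq hcond hS hxS
    have hxZ : Z x := ⟨hx, fun h => hv0.2 fun s _ hs => v0.mono (hmin s hs) h⟩
    have hZx : ∀ S : Sublattice L, M ≤ S → ∀ y, Z y → y ∈ S → x ∈ S := by
      intro S hS y hy hyS
      by_contra hxS
      exact hy.2 (free_avoid hx hmin huniq hS hxS y hyS hy.1)
    have hZM : ∀ y, Z y → y ∉ M := fun y hy hyM => hxM (hZx M le_rfl y hy hyM)
    -- all elements of `Z` lie in the same sublattices
    have hZcls : ∀ y, Z y → ∀ S : Sublattice L, M ≤ S → (y ∈ S ↔ x ∈ S) := by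
      intro y hy S hS
      refine ⟨hZx S hS y hy, fun hxS => ?_⟩
      by_contra hyS
      have h1 : {S : Sublattice L | M ≤ S ∧ y ∈ S}.ncard <
          {S : Sublattice L | M ≤ S ∧ x ∈ S}.ncard := by
        refine Set.ncard_lt_ncard ⟨fun T hT => ⟨hT.1, hZx T hT.1 y hy hT.2⟩, fun hsub => ?_⟩
          (hfin _)
        exact hyS (hsub ⟨hS, hxS⟩ : S ∈ {S : Sublattice L | M ≤ S ∧ y ∈ S}).2
      have h2 := hstr y (hZM y hy)
      omega
    have hMimpl : M ≤ impl p v0 := fun s hs => mem_impl.2 fun hp => by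
      by_contra hv
      exact hZM s ⟨hp, hv⟩ hs
    have hclsZ : ∀ y, cls M x y → Z y := by
      intro y hy
      by_contra hyZ
      have h1 : y ∈ impl p v0 := mem_impl.2 fun hp => by
        by_contra hv
        exact hyZ ⟨hp, hv⟩
      have h2 : x ∈ impl p v0 := (hy _ hMimpl).1 h1
      exact hxZ.2 (mem_impl.1 h2 hx)
    -- removing `Z`
    have hrem : ∀ S : Sublattice L, M ≤ S → ∃ T : Sublattice L, M ≤ T ∧
        ∀ s, s ∈ T ↔ s ∈ S ∧ ¬ Z s := by
      intro S hS
      refine ⟨S ⊓ impl p v0, le_inf hS hMimpl, fun s => ?_⟩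
      rw [Sublattice.mem_inf, mem_impl]
      refine and_congr_right fun _ => ?_
      simp only [Z]
      tauto
    -- adding `Z`
    have hadd : ∀ S : Sublattice L, M ≤ S → x ∉ S → ∃ T : Sublattice L, M ≤ T ∧ x ∈ T ∧
        (∀ s, s ∈ T ↔ s ∈ S ∨ Z s) ∧ ∀ s, s ∈ S ↔ s ∈ T ∧ ¬ Z s := by
      intro S hS hxS
      obtain ⟨T, hST, hxT, hT⟩ := hstep S hS hxS
      refine ⟨T, hS.trans hST, hxT, fun s => ⟨fun hs => ?_, ?_⟩, hT⟩
      · by_cases hZ : Z s
        · exact Or.inr hZ
        · exact Or.inl ((hT s).2 ⟨hs, hZ⟩)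
      · rintro (hs | hs)
        · exact hST hs
        · exact (hZcls s hs T (hS.trans hST)).2 hxT
    obtain ⟨M', hMM', hxM', hM'1, hM'2⟩ := hadd M le_rfl hxM
    have hM'iff : ∀ S : Sublattice L, M' ≤ S ↔ M ≤ S ∧ x ∈ S := by
      intro S
      constructor
      · intro h
        exact ⟨hMM'.trans h, h hxM'⟩
      · rintro ⟨h1, h2⟩ s hs
        rcases (hM'1 s).1 hs with h3 | h3
        · exact h1 h3
        · exact (hZcls s h3 S h1).2 h2
    have hset : {S : Sublattice L | M' ≤ S} = {S : Sublattice L | M ≤ S ∧ x ∈ S} := by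
      ext S
      exact hM'iff S
    have hlt : ((M' : Set L)ᶜ).ncard < n := by
      rw [← hn]
      refine Set.ncard_lt_ncard ⟨fun s hs hs' => hs (hMM' hs'), fun hsub => ?_⟩ (Set.toFinite _)
      exact hsub (show x ∈ ((M : Set L)ᶜ) from hxM) hxM'
    rcases ih _ hlt M' rfl with ⟨y, hyM', hy⟩ | hgood
    · -- a strictly rare element above `M'` is strictly rare above `M`
      exfalso
      have hyM : y ∉ M := fun h => hyM' (hMM' h)
      have h0 := hstr y hyM
      have hsplit : {S : Sublattice L | M ≤ S ∧ y ∈ S} ⊆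
          {S : Sublattice L | M' ≤ S ∧ y ∈ S} ∪ {S : Sublattice L | (M ≤ S ∧ y ∈ S) ∧ x ∉ S} := by
        rintro S ⟨h1, h2⟩
        by_cases h3 : x ∈ S
        · exact Or.inl ⟨(hM'iff S).2 ⟨h1, h3⟩, h2⟩
        · exact Or.inr ⟨⟨h1, h2⟩, h3⟩
      have hle2 : {S : Sublattice L | (M ≤ S ∧ y ∈ S) ∧ x ∉ S}.ncard ≤
          {S : Sublattice L | M' ≤ S ∧ y ∈ S}.ncard := by
        choose! f hf using fun S (hS : S ∈ {S : Sublattice L | (M ≤ S ∧ y ∈ S) ∧ x ∉ S}) =>
          hadd S hS.1.1 hS.2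
        refine Set.ncard_le_ncard_of_injOn f (fun S hS => ?_) ?_ (hfin _)
        · obtain ⟨h1, h2, h3, h4⟩ := hf S hS
          exact ⟨(hM'iff _).2 ⟨h1, h2⟩, (h3 y).2 (Or.inl hS.1.2)⟩
        · intro S hS S' hS' he
          obtain ⟨-, -, -, h4⟩ := hf S hS
          obtain ⟨-, -, -, h4'⟩ := hf S' hS'
          refine SetLike.ext fun s => ?_
          rw [h4 s, h4' s, he]
      have h1 := Set.ncard_le_ncard hsplit (hfin _)
      have h2 := Set.ncard_union_le {S : Sublattice L | M' ≤ S ∧ y ∈ S}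
        {S : Sublattice L | (M ≤ S ∧ y ∈ S) ∧ x ∉ S}
      rw [hset] at hy
      omega
    · -- classes
      intro z hzM S hS
      by_cases hzZ : Z z
      · have hcl : ∀ s, cls M z s ↔ Z s := by
          intro s
          constructor
          · intro h
            exact hclsZ s fun S hS => (h S hS).trans (hZcls z hzZ S hS)
          · intro h S hS
            exact (hZcls s h S hS).trans (hZcls z hzZ S hS).symm
        simp only [hcl]
        refine ⟨hrem S hS, ?_⟩
        by_cases hxS : x ∈ S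
        · refine ⟨S, hS, fun s => ⟨Or.inl, ?_⟩⟩
          rintro (h | h)
          · exact h
          · exact (hZcls s h S hS).2 hxS
        · obtain ⟨T, h1, -, h3, -⟩ := hadd S hS hxS
          exact ⟨T, h1, h3⟩
      · have hzM' : z ∉ M' := by
          intro h
          rcases (hM'1 z).1 h with h1 | h1
          · exact hzM h1
          · exact hzZ h1
        have hdisj : ∀ s, cls M' z s → ¬ Z s := by
          intro s hs hZs
          exact hzM' ((hs M' le_rfl).1 ((hM'1 s).2 (Or.inr hZs)))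
        have hcl : ∀ s, cls M z s ↔ cls M' z s := by
          intro s
          constructor
          · intro h S hS
            exact h S (hMM'.trans hS)
          · intro h S hS
            by_cases hxS : x ∈ S
            · exact h S ((hM'iff S).2 ⟨hS, hxS⟩)
            · obtain ⟨T, h1, h2, h3, h4⟩ := hadd S hS hxS
              have h5 := h T ((hM'iff T).2 ⟨h1, h2⟩)
              have h6 := hdisj s h
              rw [h4 s, h4 z]
              tauto
        simp only [hcl]
        by_cases hxS : x ∈ S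
        · obtain ⟨⟨T, h1, h2⟩, T', h3, h4⟩ := hgood z hzM' S ((hM'iff S).2 ⟨hS, hxS⟩)
          exact ⟨⟨T, hMM'.trans h1, h2⟩, T', hMM'.trans h3, h4⟩
        · obtain ⟨T, h1, h2, h3, h4⟩ := hadd S hS hxS
          obtain ⟨⟨T₁, h5, h6⟩, T₂, h7, h8⟩ := hgood z hzM' T ((hM'iff T).2 ⟨h1, h2⟩)
          obtain ⟨U₁, h9, h10⟩ := hrem T₁ (hMM'.trans h5)
          obtain ⟨U₂, h11, h12⟩ := hrem T₂ (hMM'.trans h7)
          refine ⟨⟨U₁, h9, fun s => ?_⟩, U₂, h11, fun s => ?_⟩
          · rw [h10 s, h6 s, h4 s]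
            exact ⟨fun h => ⟨⟨h.1.1, h.2⟩, h.1.2⟩, fun h => ⟨⟨h.1.1, h.2⟩, h.1.2⟩⟩
          · rw [h12 s, h8 s, h4 s]
            exact ⟨fun h => h.1.elim (fun h1 => Or.inl ⟨h1, h.2⟩) Or.inr,
              fun h => h.elim (fun h1 => ⟨Or.inl h1.1, h1.2⟩) fun h1 => ⟨Or.inr h1, hdisj s h1⟩⟩

end Pool.Agent.H61UC
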