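import Pool.Agent.H61UC.Core

/-!
Choice of the point `p`, and the translation between sublattices of a finite distributive lattice and
preorders on its set of lattice homomorphisms to `Prop`.
-/

set_option autoImplicit false

namespace Pool.Agent.H61UC

section choice
variable {X : Type*} [Finite X] {P Q : X → X → Prop}

theorem exists_ctx (hP : Pre P) (hQ : Pre Q) (hPQ : ∀ x y, P x y → Q x y)
    (hanti : ∀ x y, P x y → P y x → x = y) (hne : ∃ x y, Q x y ∧ ¬ P x y) :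
    ∃ p, Ctx P Q p ∧ ∃ v, V1 P Q p v := by
  classical
  let N := Nat.card X + 1
  let f : X → ℕ := fun y => {x | Q x y}.ncard * N + {x | P x y}.ncard
  let NR : Set X := {y | ∃ x, Q x y ∧ ¬ P x y}
  have hNR : NR.Nonempty := by
    obtain ⟨x, y, hxy⟩ := hne
    exact ⟨y, x, hxy⟩
  obtain ⟨p, hp, hmax⟩ := Set.exists_max_image NR f (Set.toFinite _) hNR
  have hle : ∀ s : Set X, s.ncard < N := by
    intro s
    have := Set.ncard_le_card s
    omega
  have hfin : ∀ s : Set X, s.Finite := fun s => Set.toFinite s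
  have h1 : ∀ a, Q p a → ¬ Q a p → ∀ x, Q x p → P x a := by
    intro a hpa hap x hxp
    by_contra hno
    have ha : a ∈ NR := ⟨x, hQ.trans _ _ _ hxp hpa, hno⟩
    have h3 := hmax a ha
    have h4 : {x | Q x p}.ncard < {x | Q x a}.ncard := by
      refine Set.ncard_lt_ncard ⟨fun x hx => hQ.trans _ _ _ hx hpa, fun hsub => hap ?_⟩ (hfin _)
      exact hsub (hQ.refl a)
    have h5 := hle {x | P x p}
    have h6 : ({x | Q x p}.ncard + 1) * N ≤ {x | Q x a}.ncard * N := Nat.mul_le_mul_right _ h4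
    simp only [f] at h3
    rw [add_mul] at h6
    omega
  refine ⟨p, ⟨hP, hQ, hPQ, fun x h2 h3 => hanti x p h2 h3, h1, ?_⟩, ?_⟩
  · intro a hpa hap x hxp
    by_cases haQ : Q a p
    · by_contra hno
      have ha : a ∈ NR := ⟨x, hQ.trans _ _ _ hxp (hPQ _ _ hpa), hno⟩
      have h3 := hmax a ha
      have h4 : {x | P x p}.ncard < {x | P x a}.ncard := by
        refine Set.ncard_lt_ncard ⟨fun x hx => hP.trans _ _ _ hx hpa, fun hsub => hap ?_⟩ (hfin _)
        exact hanti _ _ (hsub (hP.refl a)) hpa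
      have h5 : {x | Q x p} = {x | Q x a} := by
        ext y
        exact ⟨fun hy => hQ.trans _ _ _ hy (hPQ _ _ hpa), fun hy => hQ.trans _ _ _ hy haQ⟩
      simp only [f] at h3
      rw [h5] at h3
      omega
    · exact h1 a (hPQ _ _ hpa) haQ x hxp
  · obtain ⟨v, hv⟩ := hp
    exact ⟨v, hv⟩

end choice

section lattice
variable {L : Type*} [DistribLattice L]

/-- Lattice homomorphisms to `Prop`, the two constant ones included. -/
def H (L : Type*) [DistribLattice L] : Type _ :=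
  {φ : L → Prop // (∀ a b, φ (a ⊔ b) ↔ φ a ∨ φ b) ∧ ∀ a b, φ (a ⊓ b) ↔ φ a ∧ φ b}

instance [Finite L] : Finite (H L) := by
  unfold H
  infer_instance

theorem H.mono (φ : H L) {a b : L} (hab : a ≤ b) (ha : φ.1 a) : φ.1 b := by
  have h1 := (φ.2.1 a b).2 (Or.inl ha)
  rwa [sup_eq_right.2 hab] at h1

theorem H.ext' {φ ψ : H L} (h : ∀ s, φ.1 s ↔ ψ.1 s) : φ = ψ :=
  Subtype.ext (funext fun s => propext (h s))

/-- the constant `True` -/
def top (L : Type*) [DistribLattice L] : H L := ⟨fun _ => True, by simp, by simp⟩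

/-- the constant `False` -/
def bot (L : Type*) [DistribLattice L] : H L := ⟨fun _ => False, by simp, by simp⟩

/-- the preorder on `H L` given by a set of elements -/
def rel (S : Set L) : H L → H L → Prop := fun φ ψ => ∀ s ∈ S, ψ.1 s → φ.1 s

theorem rel_pre (S : Set L) : Pre (rel S) :=
  ⟨fun _ _ _ h => h, fun _ _ _ h1 h2 s hs h3 => h1 s hs (h2 s hs h3)⟩

theorem rel_anti (φ ψ : H L) (h1 : rel Set.univ φ ψ) (h2 : rel Set.univ ψ φ) : φ = ψ :=
  H.ext' fun s => ⟨h2 s trivial, h1 s trivial⟩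

theorem sep [Finite L] {a b : L} (hab : ¬ a ≤ b) : ∃ φ : H L, φ.1 a ∧ ¬ φ.1 b := by
  classical
  obtain ⟨m, ⟨hbm, ham⟩, hmax⟩ := Set.exists_max_image {x : L | b ≤ x ∧ ¬ a ≤ x}
    (fun x => {y : L | y ≤ x}.ncard) (Set.toFinite _) ⟨b, le_refl b, hab⟩
  have hkey : ∀ x, m < x → a ≤ x := by
    intro x hx
    by_contra hax
    have h1 := hmax x ⟨hbm.trans hx.le, hax⟩
    have h2 : {y : L | y ≤ m}.ncard < {y : L | y ≤ x}.ncard := by
      refine Set.ncard_lt_ncard ⟨fun y hy => le_trans hy hx.le, fun hsub => ?_⟩ (Set.toFinite _)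
      exact not_le_of_gt hx (hsub (le_refl x))
    omega
  refine ⟨⟨fun x => ¬ x ≤ m, ?_, ?_⟩, ham, fun h => h hbm⟩
  · intro x y
    show ¬ (x ⊔ y ≤ m) ↔ ¬ x ≤ m ∨ ¬ y ≤ m
    rw [sup_le_iff]
    tauto
  · intro x y
    constructor
    · intro h
      exact ⟨fun hx => h (inf_le_left.trans hx), fun hy => h (inf_le_right.trans hy)⟩
    · rintro ⟨hx, hy⟩ hxy
      have h1 : m < m ⊔ x := left_lt_sup.2 hx
      have h2 : m < m ⊔ y := left_lt_sup.2 hy
      have h3 : a ≤ (m ⊔ x) ⊓ (m ⊔ y) := le_inf (hkey _ h1) (hkey _ h2)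
      rw [← sup_inf_left, sup_eq_left.2 hxy] at h3
      exact ham h3

/-- minimum of the elements of a sublattice where `φ` holds -/
theorem exists_min [Finite L] (S : Sublattice L) (φ : H L) (hne : ∃ u ∈ S, φ.1 u) :
    ∃ c ∈ S, φ.1 c ∧ ∀ u ∈ S, φ.1 u → c ≤ u := by
  classical
  obtain ⟨u0, hu0, hφu0⟩ := hne
  obtain ⟨c, ⟨hcS, hc⟩, hmin⟩ := Set.exists_min_image {x : L | x ∈ S ∧ φ.1 x}
    (fun x => {y : L | y ≤ x}.ncard) (Set.toFinite _) ⟨u0, hu0, hφu0⟩
  refine ⟨c, hcS, hc, fun u hu hφu => ?_⟩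
  by_contra hcu
  have h1 := hmin (c ⊓ u) ⟨S.infClosed' hcS hu, (φ.2.2 c u).2 ⟨hc, hφu⟩⟩
  have h2 : {y : L | y ≤ c ⊓ u}.ncard < {y : L | y ≤ c}.ncard := by
    refine Set.ncard_lt_ncard ⟨fun y hy => le_trans hy inf_le_left, fun hsub => hcu ?_⟩
      (Set.toFinite _)
    exact (hsub (le_refl c) : c ≤ c ⊓ u).trans inf_le_right
  omega

/-- `S` is recovered from its preorder. -/
theorem mem_of_rel [Finite L] (S : Sublattice L) {s : L}
    (hs : ∀ φ ψ : H L, rel (S : Set L) φ ψ → ψ.1 s → φ.1 s) : s ∈ S := by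
  classical
  have claim : ∀ φ : H L, φ.1 s → ∃ c ∈ S, φ.1 c ∧ c ≤ s := by
    intro φ hφ
    have hne : ∃ u ∈ S, φ.1 u := by
      by_contra hno
      push Not at hno
      exact hs (bot L) φ (fun u hu hφu => hno u hu hφu) hφ
    obtain ⟨c, hcS, hc, hmin⟩ := exists_min S φ hne
    refine ⟨c, hcS, hc, ?_⟩
    by_contra hcs
    obtain ⟨χ, hχc, hχs⟩ := sep hcs
    exact hχs (hs χ φ (fun u hu hφu => χ.mono (hmin u hu hφu) hχc) hφ)
  obtain ⟨c0, hc0S, -, hc0⟩ := claim (top L) trivial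
  obtain ⟨m, ⟨hmS, hms⟩, hmax⟩ := Set.exists_max_image {x : L | x ∈ S ∧ x ≤ s}
    (fun x => {y : L | y ≤ x}.ncard) (Set.toFinite _) ⟨c0, hc0S, hc0⟩
  have hsm : s ≤ m := by
    by_contra hno
    obtain ⟨φ, hφs, hφm⟩ := sep hno
    obtain ⟨c, hcS, hφc, hcs⟩ := claim φ hφs
    have hcm : ¬ c ≤ m := fun hcm => hφm (φ.mono hcm hφc)
    have h1 := hmax (m ⊔ c) ⟨S.supClosed' hmS hcS, sup_le hms hcs⟩
    have h2 : {y : L | y ≤ m}.ncard < {y : L | y ≤ m ⊔ c}.ncard := by
      refine Set.ncard_lt_ncard ⟨fun y hy => le_trans hy le_sup_left, fun hsub => hcm ?_⟩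
        (Set.toFinite _)
      exact le_sup_right.trans (hsub (le_refl (m ⊔ c)) : m ⊔ c ≤ m)
    omega
  rwa [le_antisymm hsm hms]

/-- the sublattice of a relation -/
def ofRel (R : H L → H L → Prop) : Sublattice L where
  carrier := {s | ∀ φ ψ : H L, R φ ψ → ψ.1 s → φ.1 s}
  supClosed' := by
    intro a ha b hb φ ψ hR hab
    rcases (ψ.2.1 a b).1 hab with h | h
    · exact (φ.2.1 a b).2 (Or.inl (ha φ ψ hR h))
    · exact (φ.2.1 a b).2 (Or.inr (hb φ ψ hR h))
  infClosed' := by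
    intro a ha b hb φ ψ hR hab
    have h := (ψ.2.2 a b).1 hab
    exact (φ.2.2 a b).2 ⟨ha φ ψ hR h.1, hb φ ψ hR h.2⟩

theorem mem_ofRel {R : H L → H L → Prop} {s : L} :
    s ∈ ofRel R ↔ ∀ φ ψ : H L, R φ ψ → ψ.1 s → φ.1 s := Iff.rfl

/-- `R` is recovered from its sublattice. -/
theorem rel_ofRel [Finite L] {R : H L → H L → Prop} (hR : Pre R)
    (hPR : ∀ φ ψ, rel Set.univ φ ψ → R φ ψ) : rel (ofRel R : Set L) = R := by
  classical
  funext φ ψ
  apply propext
  constructor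
  · intro hrel
    by_contra hno
    have hbot : ¬ R (bot L) ψ := by
      intro h1
      exact hno (hR.trans _ _ _ (hPR φ (bot L) fun s _ hs => hs.elim) h1)
    have hne : ∀ χ, R χ ψ → ∃ u ∈ (⊤ : Sublattice L), χ.1 u := by
      intro χ hχ
      by_contra hno'
      push Not at hno'
      refine hbot ?_
      have : χ = bot L := H.ext' fun s => ⟨fun hs => hno' s (by trivial) hs, fun hs => hs.elim⟩
      rwa [← this]
    have hc : ∀ χ, R χ ψ → ∃ c, χ.1 c ∧ ∀ χ' : H L, χ'.1 c → R χ' ψ := by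
      intro χ hχ
      obtain ⟨c, -, hc, hmin⟩ := exists_min (⊤ : Sublattice L) χ (hne χ hχ)
      refine ⟨c, hc, fun χ' hχ' => hR.trans _ _ _ (hPR χ' χ ?_) hχ⟩
      intro s _ hs
      exact χ'.mono (hmin s (by trivial) hs) hχ'
    obtain ⟨c0, -, hc0⟩ := hc (top L) (hPR _ _ fun s _ _ => trivial)
    obtain ⟨m, hm, hmax⟩ := Set.exists_max_image {x : L | ∀ χ' : H L, χ'.1 x → R χ' ψ}
      (fun x => {y : L | y ≤ x}.ncard) (Set.toFinite _) ⟨c0, hc0⟩
    have hmem : ∀ χ, R χ ψ → χ.1 m := by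
      intro χ hχ
      obtain ⟨c, hχc, hc⟩ := hc χ hχ
      by_contra hχm
      have hcm : ¬ c ≤ m := fun hcm => hχm (χ.mono hcm hχc)
      have h1 := hmax (m ⊔ c) (by
        intro χ' hχ'
        rcases (χ'.2.1 m c).1 hχ' with h | h
        · exact hm χ' h
        · exact hc χ' h)
      have h2 : {y : L | y ≤ m}.ncard < {y : L | y ≤ m ⊔ c}.ncard := by
        refine Set.ncard_lt_ncard ⟨fun y hy => le_trans hy le_sup_left, fun hsub => hcm ?_⟩
          (Set.toFinite _)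
        exact le_sup_right.trans (hsub (le_refl (m ⊔ c)) : m ⊔ c ≤ m)
      omega
    have hmR : m ∈ ofRel R := by
      intro χ χ' hχ hm'
      exact hmem χ (hR.trans _ _ _ hχ (hm χ' hm'))
    exact hno (hm φ (hrel m hmR (hmem ψ (hR.refl ψ))))
  · intro h s hs h'
    exact hs φ ψ h h'

/-- sublattices above `M` and preorders -/
theorem bijOn [Finite L] (M : Sublattice L) :
    Set.BijOn (fun S : Sublattice L => rel (S : Set L)) {S | M ≤ S}
      (Iv (rel Set.univ) (rel (M : Set L))) := by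
  refine ⟨?_, ?_, ?_⟩
  · intro S hS
    exact ⟨rel_pre _, fun φ ψ h s _ => h s trivial, fun φ ψ h s hs => h s (hS hs)⟩
  · intro S _ T _ hST
    have hST' : rel (S : Set L) = rel (T : Set L) := hST
    apply le_antisymm
    · intro s hs
      apply mem_of_rel T
      intro φ ψ h
      rw [← hST'] at h
      exact h s hs
    · intro s hs
      apply mem_of_rel S
      intro φ ψ h
      rw [hST'] at h
      exact h s hs
  · rintro R ⟨hR, hPR, hRQ⟩
    refine ⟨ofRel R, ?_, rel_ofRel hR hPR⟩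
    intro s hs φ ψ hRφ
    exact hRQ φ ψ hRφ s hs

theorem ncard_eq [Finite L] (M : Sublattice L) :
    {S : Sublattice L | M ≤ S}.ncard = (Iv (rel Set.univ) (rel (M : Set L))).ncard := by
  rw [← (bijOn M).image_eq, (bijOn M).injOn.ncard_image]

/-- the sublattices above `M` which contain the least element of the filter `p` -/
theorem ncard_eq_Cs [Finite L] (M : Sublattice L) (p : H L) {x : L} (hx : p.1 x)
    (hmin : ∀ s, p.1 s → x ≤ s) :
    {S : Sublattice L | M ≤ S ∧ x ∈ S}.ncard =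
      (Cs (rel Set.univ) (rel (M : Set L)) p).ncard := by
  have himg : (fun S : Sublattice L => rel (S : Set L)) '' {S | M ≤ S ∧ x ∈ S} =
      Cs (rel Set.univ) (rel (M : Set L)) p := by
    apply Set.Subset.antisymm
    · rintro _ ⟨S, ⟨hMS, hxS⟩, rfl⟩
      refine ⟨(bijOn M).mapsTo hMS, fun φ hφ s _ hs => ?_⟩
      exact φ.mono (hmin s hs) (hφ x hxS hx)
    · rintro R ⟨hR, hcl⟩
      obtain ⟨S, hS, rfl⟩ := (bijOn M).surjOn hR
      refine ⟨S, ⟨hS, ?_⟩, rfl⟩
      apply mem_of_rel S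
      intro φ ψ h hψ
      have h1 : rel (S : Set L) ψ p := fun s _ hs => ψ.mono (hmin s hs) hψ
      exact hcl φ ((rel_pre _).trans _ _ _ h h1) x trivial hx
  rw [← himg, ((bijOn M).injOn.mono fun S hS => hS.1).ncard_image]

/-- **Intermediate sublattices.** -/
theorem intermediate [Finite L] (M : Sublattice L) (hM : M ≠ ⊤) :
    ∃ x, x ∉ M ∧ 2 * {S : Sublattice L | M ≤ S ∧ x ∈ S}.ncard ≤
      {S : Sublattice L | M ≤ S}.ncard := by
  classical
  have hne : ∃ φ ψ : H L, rel (M : Set L) φ ψ ∧ ¬ rel Set.univ φ ψ := by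
    by_contra hno
    push Not at hno
    apply hM
    rw [eq_top_iff]
    intro s _
    apply mem_of_rel M
    intro φ ψ h
    exact hno φ ψ h s trivial
  obtain ⟨p, hctx, v, hv⟩ := exists_ctx (rel_pre Set.univ) (rel_pre (M : Set L))
    (fun φ ψ h s _ => h s trivial) rel_anti hne
  have hpne : ∃ u ∈ (⊤ : Sublattice L), p.1 u := by
    by_contra hno
    push Not at hno
    exact hv.2 fun s _ hs => (hno s (by trivial) hs).elim
  obtain ⟨x, -, hx, hmin⟩ := exists_min (⊤ : Sublattice L) p hpne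
  have hmin' : ∀ s, p.1 s → x ≤ s := fun s hs => hmin s (by trivial) hs
  refine ⟨x, ?_, ?_⟩
  · intro hxM
    exact hv.2 fun s _ hs => v.mono (hmin' s hs) (hv.1 x hxM hx)
  · rw [ncard_eq, ncard_eq_Cs M p hx hmin']
    exact core hctx ⟨v, hv⟩

end lattice

end Pool.Agent.H61UC
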